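import Pool.Agent.N240.W.Vc
import Pool.Agent.W767.Kc.Curve

set_option autoImplicit false

/-!
# Polygonal curves of low order through given points of a `k`-dimensional affine subspace
-/

open Finset MeasureTheory

namespace Pool.Agent.N240.W

variable {n : ℕ}

/-- truncation to `[0, 1]` -/
def clamp (u : ℝ) : ℝ := max 0 (min 1 u)

theorem continuous_clamp : Continuous clamp := by unfold clamp; fun_prop

theorem clamp_of_le {u : ℝ} (h : u ≤ 0) : clamp u = 0 := by
  unfold clamp
  rw [min_eq_right (by linarith), max_eq_left h]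

theorem clamp_of_ge {u : ℝ} (h : 1 ≤ u) : clamp u = 1 := by
  unfold clamp
  rw [min_eq_left h, max_eq_right (by norm_num)]

theorem clamp_of_mem {u : ℝ} (h0 : 0 ≤ u) (h1 : u ≤ 1) : clamp u = u := by
  unfold clamp
  rw [min_eq_right h1, max_eq_right h0]

theorem clamp_nonneg (u : ℝ) : 0 ≤ clamp u := le_max_left _ _

theorem clamp_le_one (u : ℝ) : clamp u ≤ 1 := max_le (by norm_num) (min_le_left _ _)

/-- The polygonal curve with the vertices `l`. -/
noncomputable def poly : List (E n) → ℝ → E n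
  | [], _ => 0
  | [x], _ => x
  | (x :: y :: l), u => poly (y :: l) (u - 1) + (1 - clamp u) • (x - y)

theorem continuous_poly : ∀ l : List (E n), Continuous (poly l)
  | [] => continuous_const
  | [_] => continuous_const
  | (x :: y :: l) => by
    have h1 := continuous_poly (y :: l)
    have h2 := continuous_clamp
    show Continuous (fun u => poly (y :: l) (u - 1) + (1 - clamp u) • (x - y))
    exact (h1.comp (continuous_id.sub continuous_const)).add
      ((continuous_const.sub h2).smul continuous_const)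

theorem poly_neg : ∀ (x : E n) (l : List (E n)) (u : ℝ), u ≤ 0 → poly (x :: l) u = x
  | x, [], u, _ => rfl
  | x, (y :: l), u, hu => by
    show poly (y :: l) (u - 1) + (1 - clamp u) • (x - y) = x
    rw [poly_neg y l (u - 1) (by linarith), clamp_of_le hu]
    simp

theorem poly_ge (x y : E n) (l : List (E n)) (u : ℝ) (hu : 1 ≤ u) :
    poly (x :: y :: l) u = poly (y :: l) (u - 1) := by
  show poly (y :: l) (u - 1) + (1 - clamp u) • (x - y) = _
  rw [clamp_of_ge hu]
  simp

theorem poly_le_one (x y : E n) (l : List (E n)) (u : ℝ) (hu : u ≤ 1) :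
    poly (x :: y :: l) u = y + (1 - clamp u) • (x - y) := by
  show poly (y :: l) (u - 1) + (1 - clamp u) • (x - y) = _
  rw [poly_neg y l (u - 1) (by linarith)]

theorem mem_poly : ∀ (l : List (E n)) (z : E n), z ∈ l → ∃ u : ℝ, 0 ≤ u ∧ poly l u = z
  | [], z, h => by simp at h
  | [x], z, h => ⟨0, le_rfl, by rw [List.mem_singleton.1 h]; rfl⟩
  | (x :: y :: l), z, h => by
    rcases List.mem_cons.1 h with h | h
    · exact ⟨0, le_rfl, by rw [h, poly_neg _ _ _ le_rfl]⟩
    · obtain ⟨u, hu, hz⟩ := mem_poly (y :: l) z h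
      exact ⟨u + 1, by linarith, by rw [poly_ge _ _ _ _ (by linarith), add_sub_cancel_right, hz]⟩

theorem card_level (P : Finset (E n)) (ν : E n) (c : ℝ) : ∀ l : List (E n), (∀ x ∈ l, x ∈ P) →
    (∀ x ∈ l, inner ℝ ν x ≠ c) → l ≠ [] →
    {u : ℝ | inner ℝ ν (poly l u) = c}.encard ≤ (cr (half P ν c) l : ℕ)
  | [], _, _, h => absurd rfl h
  | [x], _, hc, _ => by
    have : {u : ℝ | inner ℝ ν (poly [x] u) = c} = ∅ := by
      ext u
      simp only [Set.mem_ofPred_eq, Set.mem_empty_iff_false, iff_false]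
      exact hc x (by simp)
    rw [this]
    simp
  | (x :: y :: l), hP, hc, _ => by
    have ih := card_level P ν c (y :: l) (fun z hz => hP z (List.mem_cons_of_mem _ hz))
      (fun z hz => hc z (List.mem_cons_of_mem _ hz)) (by simp)
    have hx := hc x (by simp)
    have hy := hc y (by simp)
    have hxP := hP x (by simp)
    have hyP := hP y (by simp)
    set a : ℝ := inner ℝ ν x with ha
    set b : ℝ := inner ℝ ν y with hb
    have hform : ∀ u ≤ 1, inner ℝ ν (poly (x :: y :: l) u) = b + (1 - clamp u) * (a - b) := by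
      intro u hu
      rw [poly_le_one _ _ _ _ hu, inner_add_right, inner_smul_right, inner_sub_right]
    have hsub : {u : ℝ | inner ℝ ν (poly (x :: y :: l) u) = c} ⊆
        {u : ℝ | u ≤ 1 ∧ b + (1 - clamp u) * (a - b) = c} ∪
          (fun u => u + 1) '' {u : ℝ | inner ℝ ν (poly (y :: l) u) = c} := by
      intro u hu
      rcases le_or_gt u 1 with h | h
      · left
        exact ⟨h, by rw [← hform u h]; exact hu⟩
      · right
        refine ⟨u - 1, ?_, by ring⟩
        have hu' : inner ℝ ν (poly (x :: y :: l) u) = c := hu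
        rw [poly_ge _ _ _ _ h.le] at hu'
        exact hu'
    have h1 : {u : ℝ | u ≤ 1 ∧ b + (1 - clamp u) * (a - b) = c}.encard ≤
        ((if sep (half P ν c) x y then 1 else 0 : ℕ) : ℕ∞) := by
      by_cases hs : sep (half P ν c) x y
      · rw [if_pos hs]
        have hab : a ≠ b := by
          intro h
          apply hs
          rw [mem_half, mem_half, ← ha, ← hb, h]
          simp [hxP, hyP]
        rw [Nat.cast_one, Set.encard_le_one_iff]
        rintro u v ⟨hu1, hu⟩ ⟨hv1, hv⟩
        have key : ∀ u : ℝ, u ≤ 1 → b + (1 - clamp u) * (a - b) = c → clamp u = u := by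
          intro u hu1 hu
          apply clamp_of_mem _ hu1
          by_contra hneg
          push Not at hneg
          rw [clamp_of_le hneg.le] at hu
          apply hx
          linarith
        have e1 := key u hu1 hu
        have e2 := key v hv1 hv
        have e3 : (clamp u - clamp v) * (a - b) = 0 := by linarith
        rcases mul_eq_zero.1 e3 with h | h
        · rw [e1, e2] at h; linarith
        · exact absurd (by linarith) hab
      · rw [if_neg hs]
        have : {u : ℝ | u ≤ 1 ∧ b + (1 - clamp u) * (a - b) = c} = ∅ := by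
          ext u
          simp only [Set.mem_ofPred_eq, Set.mem_empty_iff_false, iff_false, not_and]
          intro _ hu
          unfold sep at hs
          push Not at hs
          rw [mem_half, mem_half, ← ha, ← hb] at hs
          simp only [hxP, hyP, true_and] at hs
          have h0 := clamp_nonneg u
          have h1 := clamp_le_one u
          rcases lt_or_gt_of_ne hx with h | h
          · have h2 : ¬ (c < b) := fun h' => absurd (hs.2 h') (not_lt.2 h.le)
            have h3 : b < c := lt_of_le_of_ne (not_lt.1 h2) hy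
            rcases le_total a b with hab | hab
            · nlinarith [mul_nonneg (sub_nonneg.2 h1) (sub_nonneg.2 hab)]
            · nlinarith [mul_nonneg h0 (sub_nonneg.2 hab)]
          · have h3 : c < b := hs.1 h
            rcases le_total a b with hab | hab
            · nlinarith [mul_nonneg h0 (sub_nonneg.2 hab)]
            · nlinarith [mul_nonneg (sub_nonneg.2 h1) (sub_nonneg.2 hab)]
        rw [this]
        simp
    calc {u : ℝ | inner ℝ ν (poly (x :: y :: l) u) = c}.encard
        ≤ _ := Set.encard_le_encard hsub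
      _ ≤ {u : ℝ | u ≤ 1 ∧ b + (1 - clamp u) * (a - b) = c}.encard +
          ((fun u => u + 1) '' {u : ℝ | inner ℝ ν (poly (y :: l) u) = c}).encard :=
        Set.encard_union_le _ _
      _ ≤ ((if sep (half P ν c) x y then 1 else 0 : ℕ) : ℕ∞) + (cr (half P ν c) (y :: l) : ℕ) := by
        gcongr
        exact (Set.encard_image_le _ _).trans ih
      _ = _ := by
        rw [← Nat.cast_add]
        rfl

theorem order_poly (P : Finset (E n)) {l : List (E n)} (hl : l ≠ []) (hP : ∀ x ∈ l, x ∈ P) {N : ℕ}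
    (hN : ∀ ν c, cr (half P ν c) l ≤ N) : Pool.Agent.W767.Kc.OrderLE N (poly l) := by
  intro ν _
  have hfin : (((fun x : E n => (inner ℝ ν x : ℝ)) '' {x | x ∈ l})).Finite :=
    (List.finite_toSet l).image _
  have h0 : volume ((fun x : E n => (inner ℝ ν x : ℝ)) '' {x | x ∈ l}) = 0 := hfin.measure_zero _
  filter_upwards [measure_eq_zero_iff_ae_notMem.1 h0] with c hc
  refine (card_level P ν c l hP ?_ hl).trans (by exact_mod_cast hN ν c)
  intro x hx h
  exact hc ⟨x, hx, h⟩

theorem log_succ_le {q : ℕ} (hq : 1 ≤ q) : Real.log ((q : ℝ) + 1) ≤ 1 + Real.log q := by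
  have hq1 : (1 : ℝ) ≤ q := by exact_mod_cast hq
  have h1 : Real.log ((q : ℝ) + 1) ≤ Real.log (2 * q) :=
    Real.log_le_log (by linarith) (by linarith)
  rw [Real.log_mul (by norm_num) (by linarith)] at h1
  have := Real.log_two_lt_d9
  linarith

theorem sum_th {A k q : ℕ} (hk : 1 ≤ k) (hq : 1 ≤ q) :
    ∑ i ∈ Finset.Icc 2 q, th A k i ≤
      4 * A * (1 + Real.log q) ^ 2 * (q : ℝ) ^ (1 - 1 / (k : ℝ)) := by
  have hq1 : (1 : ℝ) ≤ q := by exact_mod_cast hq
  have hk1 : (1 : ℝ) ≤ k := by exact_mod_cast hk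
  have hlog : 0 ≤ Real.log q := Real.log_nonneg hq1
  have hexp : 0 ≤ 1 - 1 / (k : ℝ) := by
    rw [sub_nonneg, div_le_one (by linarith)]
    exact hk1
  set R := (q : ℝ) ^ (1 - 1 / (k : ℝ)) with hR
  have hR0 : 0 ≤ R := by positivity
  have hA0 : (0 : ℝ) ≤ A := Nat.cast_nonneg _
  have h1 : ∀ i ∈ Finset.Icc 2 q, th A k i ≤ 4 * A * Real.log q * R * ((i : ℝ))⁻¹ := by
    intro i hi
    rw [Finset.mem_Icc] at hi
    have hi2 : (2 : ℝ) ≤ i := by exact_mod_cast hi.1
    have hiq : (i : ℝ) ≤ q := by exact_mod_cast hi.2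
    have hi0 : (0 : ℝ) < i := by linarith
    have h2 : Real.log i ≤ Real.log q := Real.log_le_log hi0 hiq
    have h3 : ((i : ℝ) ^ (1 / (k : ℝ)))⁻¹ = (i : ℝ) ^ (1 - 1 / (k : ℝ)) * ((i : ℝ))⁻¹ := by
      rw [← Real.rpow_neg hi0.le, Real.rpow_sub hi0, Real.rpow_one, Real.rpow_neg hi0.le]
      field_simp
    unfold th
    rw [div_div_eq_mul_div, div_eq_mul_inv, h3]
    have h4 : (i : ℝ) ^ (1 - 1 / (k : ℝ)) ≤ R := Real.rpow_le_rpow hi0.le hiq hexp
    have h5 : 0 ≤ Real.log i := Real.log_nonneg (by linarith)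
    calc 4 * Real.log i * A * ((i : ℝ) ^ (1 - 1 / (k : ℝ)) * ((i : ℝ))⁻¹)
        = (4 * A * Real.log i * (i : ℝ) ^ (1 - 1 / (k : ℝ))) * ((i : ℝ))⁻¹ := by ring
      _ ≤ (4 * A * Real.log q * R) * ((i : ℝ))⁻¹ := by
          gcongr
  refine (Finset.sum_le_sum h1).trans ?_
  rw [← Finset.mul_sum]
  have h6 : ∑ i ∈ Finset.Icc 2 q, ((i : ℝ))⁻¹ ≤ 1 + Real.log q := by
    have h7 := harmonic_le_one_add_log q
    rw [harmonic_eq_sum_Icc] at h7
    push_cast at h7
    refine le_trans (Finset.sum_le_sum_of_subset_of_nonneg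
      (Finset.Icc_subset_Icc (by norm_num) le_rfl) fun i _ _ => by positivity) h7
  calc 4 * A * Real.log q * R * ∑ i ∈ Finset.Icc 2 q, ((i : ℝ))⁻¹
      ≤ 4 * A * Real.log q * R * (1 + Real.log q) := by gcongr
    _ ≤ 4 * A * (1 + Real.log q) * R * (1 + Real.log q) := by
        gcongr
        linarith
    _ = _ := by ring

/-- **Curves of low order through given points** when the half-spaces have a small dual shatter
function on the points. -/
theorem exists_curve {A k : ℕ} (hA : 1 ≤ A) (hk1 : 1 ≤ k) {P : Finset (E n)}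
    (hD : Dual A k P (fam P)) (hne : P.Nonempty) : ∃ (N : ℕ) (γ : ℝ → E n), Continuous γ ∧
      Pool.Agent.W767.Kc.OrderLE N γ ∧ (∀ x ∈ P, ∃ u, γ u = x) ∧
      (N : ℝ) ≤ 4 * ((n : ℝ) + 1 + 4 * A) * (1 + Real.log P.card) ^ 2 *
        (P.card : ℝ) ^ (1 - 1 / (k : ℝ)) := by
  classical
  set q := P.card with hq
  have hq1 : 1 ≤ q := hne.card_pos
  have hq1' : (1 : ℝ) ≤ q := by exact_mod_cast hq1
  obtain ⟨l, c, hl, hc, hsum⟩ := walk_weighted hA q P hq.symm hq1 hD (fun _ => 1)
    (fun _ _ => by norm_num)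
  simp only [one_mul, Finset.sum_const, nsmul_eq_mul, mul_one] at hsum
  set R := (q : ℝ) ^ (1 - 1 / (k : ℝ)) with hR
  have hlog : 0 ≤ Real.log q := Real.log_nonneg hq1'
  have hexp : 0 ≤ 1 - 1 / (k : ℝ) := by
    have hk1' : (1 : ℝ) ≤ k := by exact_mod_cast hk1
    rw [sub_nonneg, div_le_one (by linarith)]
    exact hk1'
  have hA0 : (1 : ℝ) ≤ A := by exact_mod_cast hA
  have hR1 : 1 ≤ R := Real.one_le_rpow hq1' hexp
  set B : ℝ := 4 * ((n : ℝ) + 1 + 4 * A) * (1 + Real.log q) ^ 2 * R with hB
  have hB0 : 0 ≤ B := by positivity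
  have hprod : ∏ i ∈ Finset.Icc 2 q, (1 + th A k i) ≤
      Real.exp (4 * A * (1 + Real.log q) ^ 2 * R) := by
    calc ∏ i ∈ Finset.Icc 2 q, (1 + th A k i) ≤ ∏ i ∈ Finset.Icc 2 q, Real.exp (th A k i) := by
          refine Finset.prod_le_prod (fun i _ => by have := th_nonneg A k i; linarith) fun i _ => ?_
          rw [add_comm]
          exact Real.add_one_le_exp _
      _ = Real.exp (∑ i ∈ Finset.Icc 2 q, th A k i) := (Real.exp_sum _ _).symm
      _ ≤ _ := Real.exp_le_exp.2 (sum_th hk1 hq1)
  have hfamcard : ((fam P).card : ℝ) ≤ Real.exp (((n : ℝ) + 1) * (1 + Real.log q)) := by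
    have h0 : Module.finrank ℝ (⊤ : AffineSubspace ℝ (E n)).direction ≤ n := by
      rw [AffineSubspace.direction_top, finrank_top]
      simp
    have h1 : ((fam P).card : ℝ) ≤ ((q : ℝ) + 1) ^ (n + 1) := by
      exact_mod_cast card_fam h0 (fun x _ => AffineSubspace.mem_top ℝ (E n) x)
    refine h1.trans ?_
    have h2 : (q : ℝ) + 1 ≤ Real.exp (1 + Real.log q) := by
      have h3 := log_succ_le hq1
      calc (q : ℝ) + 1 = Real.exp (Real.log ((q : ℝ) + 1)) := (Real.exp_log (by linarith)).symm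
        _ ≤ _ := Real.exp_le_exp.2 h3
    calc ((q : ℝ) + 1) ^ (n + 1) ≤ (Real.exp (1 + Real.log q)) ^ (n + 1) := by gcongr
      _ = _ := by
        rw [← Real.exp_nat_mul]
        congr 1
        push_cast
        ring
  have hcF : ∀ F ∈ fam P, (cr F l : ℝ) ≤ B := by
    intro F hF
    have h1 : (2 : ℝ) ^ (c F) ≤ Real.exp (((n : ℝ) + 1 + 4 * A) * (1 + Real.log q) ^ 2 * R) := by
      calc (2 : ℝ) ^ (c F) ≤ ∑ F ∈ fam P, (2 : ℝ) ^ (c F) :=
            Finset.single_le_sum (f := fun F => (2 : ℝ) ^ (c F)) (fun _ _ => by positivity) hF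
        _ ≤ (fam P).card * ∏ i ∈ Finset.Icc 2 q, (1 + th A k i) := hsum
        _ ≤ Real.exp (((n : ℝ) + 1) * (1 + Real.log q)) *
            Real.exp (4 * A * (1 + Real.log q) ^ 2 * R) := by
          gcongr
          exact Finset.prod_nonneg fun i _ => by have := th_nonneg A k i; linarith
        _ = Real.exp (((n : ℝ) + 1) * (1 + Real.log q) + 4 * A * (1 + Real.log q) ^ 2 * R) :=
          (Real.exp_add _ _).symm
        _ ≤ _ := by
          apply Real.exp_le_exp.2
          have h2 : 1 + Real.log q ≤ (1 + Real.log q) ^ 2 * R := by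
            calc 1 + Real.log q = (1 + Real.log q) * 1 := (mul_one _).symm
              _ ≤ (1 + Real.log q) * ((1 + Real.log q) * R) := by
                gcongr
                nlinarith
              _ = _ := by ring
          have hk0 : (0 : ℝ) ≤ n := Nat.cast_nonneg _
          nlinarith
    have h3 : (c F : ℝ) * Real.log 2 ≤ ((n : ℝ) + 1 + 4 * A) * (1 + Real.log q) ^ 2 * R := by
      have h4 := Real.log_le_log (by positivity) h1
      rwa [Real.log_pow, Real.log_exp] at h4
    have h5 : (1 : ℝ) / 2 < Real.log 2 := by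
      have := Real.log_two_gt_d9
      linarith
    rw [hc F]
    push_cast
    have h6 : (0 : ℝ) ≤ c F := Nat.cast_nonneg _
    rw [hB]
    nlinarith
  refine ⟨⌊B⌋₊, poly l, continuous_poly l, ?_, ?_, ?_⟩
  · refine order_poly P ?_ (fun x hx => (hl x).1 hx) ?_
    · rintro rfl
      obtain ⟨x, hx⟩ := hne
      have := (hl x).2 hx
      simp at this
    · intro ν t
      exact Nat.le_floor (hcF _ (mem_fam.2 ⟨ν, t, rfl⟩))
  · intro x hx
    obtain ⟨u, -, hu⟩ := mem_poly l x ((hl x).2 hx)
    exact ⟨u, hu⟩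
  · exact Nat.floor_le hB0

end Pool.Agent.N240.W
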