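import Pool.Agent.Y245.Meet
import Pool.Agent.N240.W.Poly

set_option autoImplicit false

/-!
# The Kakeya maximal function over tubes which meet a curve of low order at each scale
-/

open MeasureTheory Set Filter Topology ENNReal NNReal Metric

namespace Pool.Agent.N240.W

open Pool.Agent.Y245 Pool.Agent.W767.Kc

theorem maxHyp_of_curves {d : ℕ} (hd : 2 ≤ d) {η B : ℝ} (hη : 0 ≤ η) (hB : 0 < B) {q : ℕ}
    {S : Set (sphere (0 : E (d + 1)) 1)} {a : sphere (0 : E (d + 1)) 1 → E (d + 1)} {κ : Type}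
    (h : ∀ i : ℕ, ∃ (T : Finset κ) (N : κ → ℕ) (γ : κ → ℝ → E (d + 1)),
      (∀ z ∈ T, Continuous (γ z) ∧ Pool.Agent.W767.Kc.OrderLE (N z) (γ z)) ∧
      (∀ e ∈ S, ∃ z ∈ T, ∃ u, ‖a e - γ z u‖ ≤ (1 / 2) ^ (i + 1)) ∧
      ((∑ z ∈ T, (N z + 1) : ℕ) : ℝ) ≤ B * ((i : ℝ) + 1) ^ q * ((2 : ℝ) ^ (i + 1)) ^ η) :
    Tr.MaxHyp d (d + 1) η S a := by
  classical
  intro ε hε
  obtain ⟨D, hD, hmain⟩ := main_enn d hd
  obtain ⟨P, hP, hpoly⟩ := PC.poly_le_exp (q + d + 3) hε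
  obtain ⟨a0, ha0⟩ : ∃ a0 : ℕ, 1 + ((d:ℝ) + 1) * B ≤ 2 ^ a0 := by
    obtain ⟨N, hN⟩ := pow_unbounded_of_one_lt (1 + ((d:ℝ) + 1) * B) (by norm_num : (1:ℝ) < 2)
    exact ⟨N, hN.le⟩
  obtain ⟨b0, hb0⟩ := exists_nat_ge η
  set M0 : ℝ := (2:ℝ) ^ (d * (d + 1)) * ((d:ℝ) + 1) * D.toReal * 2 ^ (d + 1) *
    ((a0:ℝ) + q + b0 + 2) ^ 2 * B with hM0
  refine ⟨(M0 + 1) * P, by positivity, ?_⟩
  intro i F hF
  obtain ⟨T, N, γ, hγN, hmeet, hNB⟩ := h i
  set Nt : ℕ := ∑ z ∈ T, (N z + 1) with hNt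
  set δ : ℝ := (1 / 2) ^ (i + 1) with hδ
  have hδ0 : 0 < δ := by positivity
  have hδ1 : δ ≤ 1 := pow_le_one₀ (by norm_num) (by norm_num)
  have hJ0 : (1:ℝ) ≤ 2 ^ (i + 1) * δ := by
    rw [hδ, ← mul_pow]; norm_num
  have hFi : Measurable (F.indicator (1 : E (d + 1) → ℝ≥0∞)) := measurable_one.indicator hF
  set J' : ℕ := a0 + q * (i + 1) + b0 * (i + 1) with hJ'
  have hx1 : (1:ℝ) ≤ (i:ℝ) + 1 := by
    have : (0:ℝ) ≤ (i:ℝ) := by positivity
    linarith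
  have hJ'1 : ∀ z ∈ T, 1 + ((d:ℝ) + 1) * N z ≤ 2 ^ J' := by
    intro z hz
    have e1 : ((i:ℝ) + 1) ^ q ≤ 2 ^ (q * (i + 1)) := by
      rw [mul_comm, pow_mul]
      gcongr
      have h0 : i + 1 < 2 ^ (i + 1) := Nat.lt_two_pow_self
      have : ((i + 1 : ℕ):ℝ) ≤ ((2 ^ (i + 1) : ℕ):ℝ) := by exact_mod_cast h0.le
      push_cast at this
      exact this
    have e2 : ((2:ℝ) ^ (i + 1)) ^ η ≤ 2 ^ (b0 * (i + 1)) := by
      calc ((2:ℝ) ^ (i + 1)) ^ η ≤ ((2:ℝ) ^ (i + 1)) ^ (b0:ℝ) :=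
            Real.rpow_le_rpow_of_exponent_le (one_le_pow₀ (by norm_num)) hb0
        _ = 2 ^ (b0 * (i + 1)) := by rw [Real.rpow_natCast, ← pow_mul, mul_comm]
    have e3 : (1:ℝ) ≤ ((i:ℝ) + 1) ^ q * ((2:ℝ) ^ (i + 1)) ^ η := by
      have h1 : (1:ℝ) ≤ ((i:ℝ) + 1) ^ q := one_le_pow₀ hx1
      have h2 : (1:ℝ) ≤ ((2:ℝ) ^ (i + 1)) ^ η :=
        Real.one_le_rpow (one_le_pow₀ (by norm_num)) hη
      nlinarith
    set W : ℝ := ((i:ℝ) + 1) ^ q * ((2:ℝ) ^ (i + 1)) ^ η with hW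
    have e4 : (N z:ℝ) ≤ B * W := by
      have h1 : N z + 1 ≤ Nt := Finset.single_le_sum (f := fun z => N z + 1)
        (fun _ _ => Nat.zero_le _) hz
      have h2 : ((N z + 1 : ℕ) : ℝ) ≤ Nt := by exact_mod_cast h1
      push_cast at h2
      rw [hW, ← mul_assoc]
      linarith
    have hd0 : (0:ℝ) ≤ (d:ℝ) + 1 := by positivity
    calc 1 + ((d:ℝ) + 1) * N z ≤ 1 + ((d:ℝ) + 1) * (B * W) := by gcongr
      _ ≤ (1 + ((d:ℝ) + 1) * B) * W := by nlinarith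
      _ ≤ 2 ^ a0 * (2 ^ (q * (i + 1)) * 2 ^ (b0 * (i + 1))) := by
        rw [hW]; gcongr
      _ = 2 ^ J' := by rw [hJ', pow_add, pow_add]; ring
  have hG : ∀ z : κ, ∃ G : E (d + 1) → ℝ≥0∞, z ∈ T → (Measurable G ∧
      (∀ e b : E (d + 1), ∀ t : ℝ, ‖e‖ = 1 →
        ‖(b - γ z t) - (inner ℝ (b - γ z t) e : ℝ) • e‖ ≤ δ →
        ((volume (tube δ e b))⁻¹ * volume (F ∩ tube δ e b)) ^ (d + 1) ≤ G e) ∧
      ∫⁻ x in closedBall (0 : E (d + 1)) 1, G (‖x‖⁻¹ • x)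
        ≤ D * ((((i + 1 : ℕ):ℝ≥0∞) + 1) ^ (d + 1) * ((J':ℝ≥0∞) + ((i + 1 : ℕ):ℝ≥0∞) + 1) ^ 2 *
          ((N z:ℝ≥0∞) + 1)) * volume F) := by
    intro z
    by_cases hz : z ∈ T
    · obtain ⟨G, hGm, hGpt, hGint⟩ := hmain (N z) (γ z) (hγN z hz).1 (hγN z hz).2 δ hδ0 hδ1 _ hFi J'
        (i + 1) (hJ'1 z hz) hJ0
      refine ⟨G, fun _ => ⟨hGm, ?_, ?_⟩⟩
      · intro e b t he hb
        have h4 := hGpt e b t he hb
        rwa [lintegral_indicator_one hF, Measure.restrict_apply hF] at h4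
      · refine hGint.trans (le_of_eq ?_)
        congr 1
        rw [← lintegral_indicator_one hF]
        apply lintegral_congr
        intro p
        by_cases hp : p ∈ F
        · rw [indicator_of_mem hp]; simp
        · rw [indicator_of_notMem hp]; simp
    · exact ⟨0, fun h => absurd h hz⟩
  choose G hG using hG
  refine ⟨fun e => (2 ^ d) ^ (d + 1) * ∑ z ∈ T, G z e, ?_, ?_, ?_⟩
  · apply Measurable.const_mul
    exact Finset.measurable_sum _ (fun z hz => (hG z hz).1.comp measurable_subtype_coe)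
  · intro e he t
    obtain ⟨z, hz, s, hs⟩ := hmeet e he
    have he1 : ‖(e : E (d + 1))‖ = 1 := by simp
    set b := a e + t • (e : E (d + 1)) with hb
    have hee : (inner ℝ (e : E (d + 1)) (e : E (d + 1)) : ℝ) = 1 := by
      rw [real_inner_self_eq_norm_sq, he1]; norm_num
    have h1 : ‖(b - γ z s) - (inner ℝ (b - γ z s) (e : E (d + 1)) : ℝ) •
        (e : E (d + 1))‖ ≤ δ := by
      set w := a e - γ z s with hw
      have h2 : b - γ z s = w + t • (e : E (d + 1)) := by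
        rw [hb, hw]; abel
      rw [h2]
      have h3 : (w + t • (e : E (d + 1))) - (inner ℝ (w + t • (e : E (d + 1))) (e : E (d + 1)) : ℝ) •
          (e : E (d + 1)) = w - (inner ℝ w (e : E (d + 1)) : ℝ) • (e : E (d + 1)) := by
        rw [inner_add_left, inner_smul_left, hee]
        simp only [conj_trivial, mul_one, add_smul]
        abel
      rw [h3]
      have h4 : ‖w - (inner ℝ w (e : E (d + 1)) : ℝ) • (e : E (d + 1))‖ ^ 2 ≤ ‖w‖ ^ 2 := by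
        rw [@norm_sub_sq_real, inner_smul_right, norm_smul, he1, mul_one, Real.norm_eq_abs, sq_abs]
        nlinarith [sq_nonneg (inner ℝ w (e : E (d + 1)) : ℝ)]
      exact (abs_le_of_sq_le_sq' h4 (norm_nonneg _)).2.trans hs
    have h2 := (hG z hz).2.1 (e : E (d + 1)) b s he1 h1
    have h3 : Tr.av δ F (e : E (d + 1)) b ≤
        2 ^ d * ((volume (tube δ (e : E (d + 1)) b))⁻¹ * volume (F ∩ tube δ (e : E (d + 1)) b)) := by
      have h4 : volume (tube δ (e : E (d + 1)) b) ≤ 2 ^ d * ENNReal.ofReal δ ^ d := by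
        refine (PC.volume_tube_le hδ0 he1).trans (le_of_eq ?_)
        rw [mul_pow, ENNReal.ofReal_mul (by positivity), ENNReal.ofReal_pow (by norm_num),
          ENNReal.ofReal_pow hδ0.le]
        congr 2
        simp
      have hD0 : ENNReal.ofReal δ ^ d ≠ 0 := pow_ne_zero _ (by simpa using hδ0)
      have hDt : ENNReal.ofReal δ ^ d ≠ ∞ := ENNReal.pow_ne_top ENNReal.ofReal_ne_top
      have h20 : (2:ℝ≥0∞) ^ d ≠ 0 := pow_ne_zero _ (by norm_num)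
      have h2t : (2:ℝ≥0∞) ^ d ≠ ∞ := ENNReal.pow_ne_top (by norm_num)
      have h5 : (ENNReal.ofReal δ ^ d)⁻¹ ≤ 2 ^ d * (volume (tube δ (e : E (d + 1)) b))⁻¹ := by
        calc (ENNReal.ofReal δ ^ d)⁻¹ = 2 ^ d * (2 ^ d * ENNReal.ofReal δ ^ d)⁻¹ := by
              rw [ENNReal.mul_inv (Or.inl h20) (Or.inl h2t), ← mul_assoc,
                ENNReal.mul_inv_cancel h20 h2t, one_mul]
          _ ≤ _ := by gcongr
      unfold Tr.av
      rw [← mul_assoc]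
      exact mul_le_mul' h5 le_rfl
    calc Tr.av δ F (e : E (d + 1)) b ^ (d + 1)
        ≤ (2 ^ d * ((volume (tube δ (e : E (d + 1)) b))⁻¹ *
          volume (F ∩ tube δ (e : E (d + 1)) b))) ^ (d + 1) := pow_le_pow_left' h3 _
      _ = (2 ^ d) ^ (d + 1) * ((volume (tube δ (e : E (d + 1)) b))⁻¹ *
          volume (F ∩ tube δ (e : E (d + 1)) b)) ^ (d + 1) := mul_pow _ _ _
      _ ≤ (2 ^ d) ^ (d + 1) * G z e := by gcongr
      _ ≤ (2 ^ d) ^ (d + 1) * ∑ z ∈ T, G z e := by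
          gcongr
          exact Finset.single_le_sum (f := fun z => G z (e : E (d + 1)))
            (fun _ _ => zero_le) hz
  · have hmeas : ∀ z ∈ T, Measurable (fun e : sphere (0 : E (d + 1)) 1 => G z e) :=
      fun z hz => (hG z hz).1.comp measurable_subtype_coe
    rw [lintegral_const_mul' _ _ (ENNReal.pow_ne_top (ENNReal.pow_ne_top (by norm_num))),
      lintegral_finset_sum _ hmeas]
    set X : ℝ≥0∞ := D * ((((i + 1 : ℕ):ℝ≥0∞) + 1) ^ (d + 1) *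
      ((J':ℝ≥0∞) + ((i + 1 : ℕ):ℝ≥0∞) + 1) ^ 2 * (Nt:ℝ≥0∞)) with hX
    have hXr : X = ENNReal.ofReal (D.toReal * ((((i + 1 : ℕ):ℝ) + 1) ^ (d + 1) *
      ((J':ℝ) + ((i + 1 : ℕ):ℝ) + 1) ^ 2 * (Nt:ℝ))) := by
      rw [ENNReal.ofReal_mul ENNReal.toReal_nonneg, ENNReal.ofReal_toReal hD, hX]
      congr 1
      rw [ENNReal.ofReal_mul (by positivity), ENNReal.ofReal_mul (by positivity),
        ENNReal.ofReal_pow (by positivity), ENNReal.ofReal_pow (by positivity)]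
      have e1 : ENNReal.ofReal (((i + 1 : ℕ):ℝ) + 1) = ((i + 1 : ℕ):ℝ≥0∞) + 1 := by
        rw [ENNReal.ofReal_add (by positivity) (by norm_num), ENNReal.ofReal_natCast,
          ENNReal.ofReal_one]
      have e2 : ENNReal.ofReal ((J':ℝ) + ((i + 1 : ℕ):ℝ) + 1) =
          (J':ℝ≥0∞) + ((i + 1 : ℕ):ℝ≥0∞) + 1 := by
        rw [ENNReal.ofReal_add (by positivity) (by norm_num),
          ENNReal.ofReal_add (by positivity) (by positivity), ENNReal.ofReal_natCast,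
          ENNReal.ofReal_natCast, ENNReal.ofReal_one]
      rw [e1, e2, ENNReal.ofReal_natCast]
    have h1 : ∑ z ∈ T, ∫⁻ e : sphere (0 : E (d + 1)) 1, G z e
        ∂(volume : Measure (E (d + 1))).toSphere ≤ ((d:ℝ≥0∞) + 1) * (X * volume F) := by
      calc ∑ z ∈ T, ∫⁻ e : sphere (0 : E (d + 1)) 1, G z e
          ∂(volume : Measure (E (d + 1))).toSphere
          ≤ ∑ z ∈ T, ((d:ℝ≥0∞) + 1) * (D * ((((i + 1 : ℕ):ℝ≥0∞) + 1) ^ (d + 1) *
            ((J':ℝ≥0∞) + ((i + 1 : ℕ):ℝ≥0∞) + 1) ^ 2 * ((N z:ℝ≥0∞) + 1)) * volume F) := by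
            refine Finset.sum_le_sum fun z hz => ?_
            refine (Pool.Agent.H742R2.Kk.sphere_le_ball d (hG z hz).1).trans ?_
            gcongr
            exact (hG z hz).2.2
        _ = ((d:ℝ≥0∞) + 1) * (X * volume F) := by
            rw [← Finset.mul_sum, ← Finset.sum_mul, ← Finset.mul_sum, ← Finset.mul_sum, hX, hNt]
            push_cast
            rfl
    -- collect the constants
    have hreal : ((2:ℝ) ^ d) ^ (d + 1) * (((d:ℝ) + 1) *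
        (D.toReal * ((((i + 1 : ℕ):ℝ) + 1) ^ (d + 1) *
      ((J':ℝ) + ((i + 1 : ℕ):ℝ) + 1) ^ 2 * (Nt:ℝ)))) ≤
        (M0 + 1) * P * ((2:ℝ) ^ (i + 1)) ^ (η + ε) := by
      set x : ℝ := (i:ℝ) + 1 with hx
      have e1 : (((i + 1 : ℕ):ℝ) + 1) ≤ 2 * x := by push_cast; rw [hx]; linarith
      have e2 : ((J':ℝ) + ((i + 1 : ℕ):ℝ) + 1) ≤ ((a0:ℝ) + q + b0 + 2) * x := by
        rw [hJ']
        push_cast
        rw [← hx]
        have : (0:ℝ) ≤ a0 := by positivity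
        nlinarith
      have e5 := hpoly i
      rw [← hx] at e5
      have hD' : 0 ≤ D.toReal := ENNReal.toReal_nonneg
      have e6 : ((2:ℝ) ^ (i + 1)) ^ (η + ε) =
          ((2:ℝ) ^ (i + 1)) ^ η * ((2:ℝ) ^ (i + 1)) ^ ε :=
        Real.rpow_add (by positivity) _ _
      rw [e6]
      set Y : ℝ := ((2:ℝ) ^ (i + 1)) ^ η with hY
      have hY0 : 0 ≤ Y := by positivity
      calc ((2:ℝ) ^ d) ^ (d + 1) * (((d:ℝ) + 1) *
            (D.toReal * ((((i + 1 : ℕ):ℝ) + 1) ^ (d + 1) *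
            ((J':ℝ) + ((i + 1 : ℕ):ℝ) + 1) ^ 2 * (Nt:ℝ))))
          ≤ ((2:ℝ) ^ d) ^ (d + 1) * (((d:ℝ) + 1) *
            (D.toReal * ((2 * x) ^ (d + 1) * (((a0:ℝ) + q + b0 + 2) * x) ^ 2 *
              (B * x ^ q * Y)))) := by
            gcongr
        _ = M0 * Y * x ^ (q + d + 3) := by
            rw [hM0, mul_pow, mul_pow, ← pow_mul, show q + d + 3 = q + (d + 1) + 2 by ring,
              pow_add x (q + (d + 1)) 2, pow_add x q (d + 1)]
            ring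
        _ ≤ M0 * Y * (P * ((2:ℝ) ^ (i + 1)) ^ ε) := by gcongr
        _ ≤ (M0 + 1) * Y * (P * ((2:ℝ) ^ (i + 1)) ^ ε) := by
            have : M0 ≤ M0 + 1 := by linarith
            gcongr
        _ = (M0 + 1) * P * (Y * ((2:ℝ) ^ (i + 1)) ^ ε) := by ring
    calc (2 ^ d) ^ (d + 1) * ∑ z ∈ T, ∫⁻ e : sphere (0 : E (d + 1)) 1, G z e
        ∂(volume : Measure (E (d + 1))).toSphere
        ≤ (2 ^ d) ^ (d + 1) * (((d:ℝ≥0∞) + 1) * (X * volume F)) := by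
          gcongr
      _ = ENNReal.ofReal (((2:ℝ) ^ d) ^ (d + 1) * (((d:ℝ) + 1) *
        (D.toReal * ((((i + 1 : ℕ):ℝ) + 1) ^ (d + 1) *
      ((J':ℝ) + ((i + 1 : ℕ):ℝ) + 1) ^ 2 * (Nt:ℝ))))) * volume F := by
          have hD' : 0 ≤ D.toReal := ENNReal.toReal_nonneg
          rw [ENNReal.ofReal_mul (p := ((2:ℝ) ^ d) ^ (d + 1)) (by positivity),
            ENNReal.ofReal_mul (p := ((d:ℝ) + 1)) (by positivity), ← hXr]
          have e1 : ENNReal.ofReal (((2:ℝ) ^ d) ^ (d + 1)) = (2 ^ d) ^ (d + 1) := by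
            rw [ENNReal.ofReal_pow (by positivity), ENNReal.ofReal_pow (by positivity)]
            simp
          have e2 : ENNReal.ofReal ((d:ℝ) + 1) = (d:ℝ≥0∞) + 1 := by
            rw [ENNReal.ofReal_add (by positivity) (by norm_num), ENNReal.ofReal_natCast,
              ENNReal.ofReal_one]
          rw [e1, e2]
          ring
      _ ≤ _ := by
          gcongr

end Pool.Agent.N240.W
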