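import Pool.Agent.N240.W.Tay

set_option autoImplicit false

/-!
# Kakeya sets whose lines meet a set of small packing dimension on a smooth manifold
-/

open MeasureTheory Set Filter Topology ENNReal NNReal Metric

namespace Pool.Agent.N240.W

open Pool.Agent.Y245

/-- For every `0 < δ < 1` the set can be covered by `C δ^{-m}` closed balls of radius `δ`. -/
def CoverLE {n : ℕ} (Z : Set (E n)) (m : ℝ) : Prop :=
  ∃ C : ℝ, ∀ δ : ℝ, 0 < δ → δ < 1 → ∃ P : Finset (E n),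
    (P.card : ℝ) ≤ C * δ ^ (-m) ∧ Z ⊆ ⋃ x ∈ P, closedBall x δ

theorem CoverLE.mono {n : ℕ} {Z Z' : Set (E n)} {m : ℝ} (h : CoverLE Z m) (hZ : Z' ⊆ Z) :
    CoverLE Z' m := by
  obtain ⟨C, hC⟩ := h
  refine ⟨C, fun δ h0 h1 => ?_⟩
  obtain ⟨P, hP, hZP⟩ := hC δ h0 h1
  exact ⟨P, hP, hZ.trans hZP⟩

theorem exists_net {n : ℕ} {Z : Set (E n)} (hne : Z.Nonempty) {δ : ℝ} {P : Finset (E n)}
    (h : Z ⊆ ⋃ x ∈ P, closedBall x δ) : ∃ Q : Finset (E n), Q.Nonempty ∧ (∀ x ∈ Q, x ∈ Z) ∧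
      Q.card ≤ P.card ∧ ∀ z ∈ Z, ∃ x ∈ Q, ‖z - x‖ ≤ 2 * δ := by
  classical
  have hex : ∀ x : E n, ∃ y : E n, (Z ∩ closedBall x δ).Nonempty → y ∈ Z ∩ closedBall x δ := by
    intro x
    by_cases hx : (Z ∩ closedBall x δ).Nonempty
    · obtain ⟨y, hy⟩ := hx
      exact ⟨y, fun _ => hy⟩
    · exact ⟨0, fun h => absurd h hx⟩
  choose f hf using hex
  set Q := (P.filter (fun x => (Z ∩ closedBall x δ).Nonempty)).image f with hQ
  have hnet : ∀ z ∈ Z, ∃ x ∈ Q, ‖z - x‖ ≤ 2 * δ := by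
    intro z hz
    obtain ⟨x, hx, hzx⟩ := mem_iUnion₂.1 (h hz)
    have hne' : (Z ∩ closedBall x δ).Nonempty := ⟨z, hz, hzx⟩
    refine ⟨f x, Finset.mem_image_of_mem _ (Finset.mem_filter.2 ⟨hx, hne'⟩), ?_⟩
    have h1 := (hf x hne').2
    rw [mem_closedBall] at h1 hzx
    rw [← dist_eq_norm]
    calc dist z (f x) ≤ dist z x + dist x (f x) := dist_triangle _ _ _
      _ ≤ 2 * δ := by rw [dist_comm x]; linarith
  refine ⟨Q, ?_, ?_, ?_, hnet⟩
  · obtain ⟨z, hz⟩ := hne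
    obtain ⟨x, hx, _⟩ := hnet z hz
    exact ⟨x, hx⟩
  · intro x hx
    obtain ⟨y, hy, rfl⟩ := Finset.mem_image.1 hx
    exact (hf y (Finset.mem_filter.1 hy).2).1
  · exact Finset.card_image_le.trans (Finset.card_filter_le _ _)

/-- A crude concavity bound. -/
theorem sum_rpow_le {κ : Type} (I : Finset κ) (n : κ → ℝ) (hn : ∀ c ∈ I, 0 ≤ n c) {N J θ : ℝ}
    (hN : ∑ c ∈ I, n c = N) (hN0 : 0 < N) (hJ : (I.card : ℝ) ≤ J) (hJ0 : 0 < J) (hθ0 : 0 ≤ θ)
    (hθ1 : θ ≤ 1) : ∑ c ∈ I, n c ^ θ ≤ 2 * (J ^ (1 - θ) * N ^ θ) := by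
  have hl : 0 < N / J := div_pos hN0 hJ0
  have hpt : ∀ c ∈ I, n c ^ θ ≤ (N / J) ^ θ * (1 + n c / (N / J)) := by
    intro c hc
    have h0 : 0 ≤ n c / (N / J) := div_nonneg (hn c hc) hl.le
    have h1 : (n c / (N / J)) ^ θ ≤ 1 + n c / (N / J) := by
      rcases le_total (n c / (N / J)) 1 with h | h
      · have := Real.rpow_le_one h0 h hθ0
        linarith
      · have := Real.rpow_le_rpow_of_exponent_le h hθ1
        rw [Real.rpow_one] at this
        linarith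
    calc n c ^ θ = ((N / J) * (n c / (N / J))) ^ θ := by
          congr 1
          field_simp
      _ = (N / J) ^ θ * (n c / (N / J)) ^ θ := Real.mul_rpow hl.le h0
      _ ≤ _ := mul_le_mul_of_nonneg_left h1 (Real.rpow_nonneg hl.le _)
  calc ∑ c ∈ I, n c ^ θ ≤ ∑ c ∈ I, (N / J) ^ θ * (1 + n c / (N / J)) := Finset.sum_le_sum hpt
    _ = (N / J) ^ θ * (I.card + N / (N / J)) := by
        rw [← Finset.mul_sum, Finset.sum_add_distrib, ← Finset.sum_div, hN]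
        simp
    _ ≤ (N / J) ^ θ * (2 * J) := by
        apply mul_le_mul_of_nonneg_left _ (Real.rpow_nonneg hl.le _)
        have : N / (N / J) = J := by field_simp
        rw [this]
        linarith
    _ = 2 * (J ^ (1 - θ) * N ^ θ) := by
        rw [Real.div_rpow hN0.le hJ0.le, Real.rpow_sub hJ0, Real.rpow_one]
        ring

theorem maxHyp_image {d l r : ℕ} (hd : 2 ≤ d) (hr : 1 ≤ r) {U : Set (E (l + 1))} (hU : IsOpen U)
    {φ : E (l + 1) → E (d + 1)} (hφ : ContDiffOn ℝ r φ U) {Q : Set (E (l + 1))}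
    (hQ : IsCompact Q) (hQU : Q ⊆ U) {Z : Set (E (d + 1))} (hZQ : Z ⊆ φ '' Q) {m : ℝ}
    (hm : 0 ≤ m) (hZ : CoverLE Z m) {S : Set (sphere (0 : E (d + 1)) 1)}
    {a : sphere (0 : E (d + 1)) 1 → E (d + 1)} (ha : ∀ e ∈ S, a e ∈ Z) :
    Tr.MaxHyp d (d + 1) (m * (1 - 1 / ((l + 1 : ℕ) : ℝ)) + 1 / r) S a := by
  classical
  have hk1 : (1 : ℝ) ≤ ((l + 1 : ℕ) : ℝ) := by
    push_cast
    have : (0:ℝ) ≤ l := Nat.cast_nonneg _
    linarith
  have hk0 : (0 : ℝ) < ((l + 1 : ℕ) : ℝ) := by linarith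
  set θ : ℝ := 1 - 1 / ((l + 1 : ℕ) : ℝ) with hθ
  have hexp : 0 ≤ θ := by
    rw [hθ, sub_nonneg, div_le_one (by linarith)]
    exact hk1
  have hexp1 : θ ≤ 1 := by
    have : 0 ≤ 1 / ((l + 1 : ℕ) : ℝ) := by positivity
    rw [hθ]; linarith
  rcases Z.eq_empty_or_nonempty with rfl | hne
  · have hS : ∀ e, e ∉ S := fun e he => ha e he
    intro ε hε
    refine ⟨1, one_pos, fun j F _ => ⟨fun _ => 0, measurable_const, fun e he => absurd he (hS e),
      by simp⟩⟩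
  obtain ⟨C, hC⟩ := hZ
  obtain ⟨b, hb0, hb1, hpol⟩ := local_poly hr hU hφ hQ hQU
  obtain ⟨R₀, hR₀⟩ := hQ.isBounded.exists_norm_le
  set R := max R₀ 0 with hRd
  have hR1 : 0 ≤ R := le_max_right _ _
  have hRb : ∀ x ∈ Q, ‖x‖ ≤ R := fun x hx => (hR₀ x hx).trans (le_max_left _ _)
  set C' : ℝ := max 1 (C * 4 ^ m) with hC'
  have hC'1 : 1 ≤ C' := le_max_left _ _
  have hlC : 0 ≤ Real.log C' := Real.log_nonneg hC'1
  set A : ℝ := 1 + Real.log C' + m with hA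
  have hA0 : 1 ≤ A := by rw [hA]; linarith
  set c1 : ℝ := 4 * (((d + 1 : ℕ) : ℝ) + 1 + 4 * (((4 * r + 1) ^ (l + 1) : ℕ) : ℝ)) + 1 with hc1
  set c2 : ℝ := (2 * R + 5) / b * 2 with hc2
  have hc2p : 0 < c2 := by positivity
  have hr0 : (0 : ℝ) < (r : ℝ) := by exact_mod_cast hr
  refine maxHyp_of_curves hd (η := m * θ + 1 / r) (by positivity)
    (B := c1 * A ^ 2 * (2 * (c2 * C'))) (by positivity) (q := 2) (κ := Fin (l + 1) → ℤ) ?_
  intro i
  set δ : ℝ := (1 / 2) ^ (i + 1) with hδ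
  have hδ0 : 0 < δ := by positivity
  have hδ1 : δ ≤ 1 := pow_le_one₀ (by norm_num) (by norm_num)
  obtain ⟨P, hP, hZP⟩ := hC (δ / 4) (by linarith) (by linarith)
  obtain ⟨X, hXne, hXZ, hXP, hX⟩ := exists_net hne hZP
  -- parameters of the points
  have hu : ∀ x : E (d + 1), ∃ u : E (l + 1), x ∈ X → u ∈ Q ∧ φ u = x := by
    intro x
    by_cases hx : x ∈ X
    · obtain ⟨u, hu, hux⟩ := hZQ (hXZ x hx)
      exact ⟨u, fun _ => ⟨hu, hux⟩⟩
    · exact ⟨0, fun h => absurd h hx⟩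
  choose u hu using hu
  set h : ℝ := b * (δ / 2) ^ (1 / (r : ℝ)) with hh
  have hδr : 0 < (δ / 2) ^ (1 / (r : ℝ)) := by positivity
  have hδr1 : (δ / 2) ^ (1 / (r : ℝ)) ≤ 1 :=
    Real.rpow_le_one (by linarith) (by linarith) (by positivity)
  have hh0 : 0 < h := by positivity
  have hh1 : h ≤ 1 := mul_le_one₀ hb1 hδr.le hδr1
  set T : Finset (Fin (l + 1) → ℤ) := X.image (fun x => PC.bx h h (u x)) with hT
  have hx0 : ∀ z : Fin (l + 1) → ℤ, ∃ x : E (d + 1), z ∈ T → x ∈ X ∧ PC.bx h h (u x) = z := by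
    intro z
    by_cases hz : z ∈ T
    · obtain ⟨x, hx, hxz⟩ := Finset.mem_image.1 hz
      exact ⟨x, fun _ => ⟨hx, hxz⟩⟩
    · exact ⟨0, fun h => absurd h hz⟩
  choose x0 hx0 using hx0
  have hp : ∀ z : Fin (l + 1) → ℤ, ∃ p : Fin (d + 1) → MvPolynomial (Fin (l + 1)) ℝ, z ∈ T →
      (∀ j, (p j).totalDegree ≤ r) ∧
        ∀ v : E (l + 1), ‖v - u (x0 z)‖ ≤ ((l : ℝ) + 1) * h →
          ‖φ v - WithLp.toLp 2 (fun j => evl (p j) v)‖ ≤ δ / 2 := by
    intro z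
    by_cases hz : z ∈ T
    · obtain ⟨p, hp1, hp2⟩ := hpol (δ / 2) (by linarith) (by linarith) (u (x0 z))
        (hu _ (hx0 z hz).1).1
      exact ⟨p, fun _ => ⟨hp1, hp2⟩⟩
    · exact ⟨0, fun h => absurd h hz⟩
  choose p hp using hp
  set Y : (Fin (l + 1) → ℤ) → Finset (E (d + 1)) := fun z => X.filter (fun x => PC.bx h h (u x) = z) with hY
  set W : (Fin (l + 1) → ℤ) → Finset (E (d + 1)) := fun z =>
    (Y z).image (fun x => WithLp.toLp 2 (fun j => evl (p z j) (u x))) with hW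
  have hYne : ∀ z ∈ T, (Y z).Nonempty := by
    intro z hz
    exact ⟨x0 z, Finset.mem_filter.2 (hx0 z hz)⟩
  have hcurve : ∀ z : Fin (l + 1) → ℤ, ∃ (N : ℕ) (γ : ℝ → E (d + 1)), z ∈ T → (Continuous γ ∧
      Pool.Agent.W767.Kc.OrderLE N γ ∧ (∀ x ∈ W z, ∃ t, γ t = x) ∧
      (N : ℝ) ≤ (c1 - 1) * (1 + Real.log (W z).card) ^ 2 * ((W z).card : ℝ) ^ θ) := by
    intro z
    by_cases hz : z ∈ T
    · have hD : Dual ((4 * r + 1) ^ (l + 1)) (l + 1) (W z) (fam (W z)) := by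
        refine dual_poly (p z) (hp z hz).1 ?_
        intro x hx
        obtain ⟨y, _, rfl⟩ := Finset.mem_image.1 hx
        exact ⟨fun j => u y j, fun j => rfl⟩
      obtain ⟨N, γ, h1, h2, h3, h4⟩ := exists_curve (A := (4 * r + 1) ^ (l + 1))
        (Nat.one_le_pow _ _ (by omega)) (by omega : 1 ≤ l + 1) hD ((hYne z hz).image _)
      refine ⟨N, γ, fun _ => ⟨h1, h2, h3, ?_⟩⟩
      rw [hc1, add_sub_cancel_right]
      exact h4
    · exact ⟨0, fun _ => 0, fun h => absurd h hz⟩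
  choose N γ hγ using hcurve
  refine ⟨T, N, γ, fun z hz => ⟨(hγ z hz).1, (hγ z hz).2.1⟩, ?_, ?_⟩
  · intro e he
    obtain ⟨x, hx, hxe⟩ := hX (a e) (ha e he)
    set z := PC.bx h h (u x) with hz
    have hzT : z ∈ T := Finset.mem_image_of_mem _ hx
    refine ⟨z, hzT, ?_⟩
    obtain ⟨t, ht⟩ := (hγ z hzT).2.2.1 (WithLp.toLp 2 (fun j => evl (p z j) (u x)))
      (Finset.mem_image_of_mem _ (Finset.mem_filter.2 ⟨hx, rfl⟩))
    refine ⟨t, ?_⟩
    have h1 : ‖u x - u (x0 z)‖ ≤ ((l : ℝ) + 1) * h := by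
      apply PC.norm_le_coord hh0.le
      intro j
      have e1 := PC.bx_le hh0 hh0 (u x) j
      have e2 := PC.bx_le hh0 hh0 (u (x0 z)) j
      rw [(hx0 z hzT).2] at e2
      rw [← hz] at e1
      have e3 : PC.wd h h j = h := by unfold PC.wd; split_ifs <;> rfl
      rw [e3] at e1 e2
      rw [PiLp.sub_apply, abs_le]
      constructor <;> linarith [e1.1, e1.2, e2.1, e2.2]
    have h2 := (hp z hzT).2 (u x) h1
    rw [(hu x hx).2] at h2
    rw [ht]
    calc ‖a e - WithLp.toLp 2 (fun j => evl (p z j) (u x))‖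
        = ‖(a e - x) + (x - WithLp.toLp 2 (fun j => evl (p z j) (u x)))‖ := by
          congr 1; abel
      _ ≤ ‖a e - x‖ + ‖x - WithLp.toLp 2 (fun j => evl (p z j) (u x))‖ := norm_add_le _ _
      _ ≤ 2 * (δ / 4) + δ / 2 := add_le_add hxe h2
      _ = δ := by ring
  -- counting
  set D : ℝ := (2 : ℝ) ^ (i + 1) with hD
  have hD1 : 1 ≤ D := one_le_pow₀ (by norm_num)
  have hD0 : 0 < D := by positivity
  have hδD : δ = D⁻¹ := by rw [hδ, hD, one_div, inv_pow]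
  have hδDm : (δ / 4) ^ (-m) = 4 ^ m * D ^ m := by
    have h1 : δ / 4 = (4 * D)⁻¹ := by
      rw [hδD, mul_inv]; ring
    rw [h1, Real.inv_rpow (by positivity), Real.rpow_neg (by positivity), inv_inv,
      Real.mul_rpow (by norm_num) hD0.le]
  set q : ℝ := (X.card : ℝ) with hq
  have hq1 : 1 ≤ q := by
    rw [hq]; exact_mod_cast hXne.card_pos
  have hDm : 0 < D ^ m := by positivity
  have hqC : q ≤ C' * D ^ m := by
    calc q ≤ P.card := by rw [hq]; exact_mod_cast hXP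
      _ ≤ C * (4 ^ m * D ^ m) := by rw [← hδDm]; exact hP
      _ = (C * 4 ^ m) * D ^ m := by ring
      _ ≤ C' * D ^ m := by
        gcongr
        exact le_max_right _ _
  set x : ℝ := (i : ℝ) + 1 with hx
  have hx1 : 1 ≤ x := by
    have : (0 : ℝ) ≤ (i : ℝ) := by positivity
    rw [hx]; linarith
  have hlogD : Real.log D ≤ x := by
    rw [hD, Real.log_pow, hx]
    push_cast
    have h1 := Real.log_two_lt_d9
    have h2 : (0 : ℝ) ≤ (i : ℝ) + 1 := by positivity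
    exact mul_le_of_le_one_right h2 (by linarith)
  have hlq : 1 + Real.log q ≤ A * x := by
    have h1 : Real.log q ≤ Real.log (C' * D ^ m) := Real.log_le_log (by linarith) hqC
    rw [Real.log_mul (by positivity) (by positivity), Real.log_rpow hD0] at h1
    have h2 : m * Real.log D ≤ m * x := by gcongr
    have h3 : 0 ≤ (1 + Real.log C') * (x - 1) := mul_nonneg (by linarith) (by linarith)
    have h4 : A * x = (1 + Real.log C') * (x - 1) + (1 + Real.log C') + m * x := by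
      rw [hA]; ring
    rw [h4]
    linarith
  have hlq0 : 0 ≤ 1 + Real.log q := by
    have := Real.log_nonneg hq1
    linarith
  have hqp : q ^ θ ≤ C' * D ^ (m * θ) := by
    calc q ^ θ ≤ (C' * D ^ m) ^ θ := by gcongr
      _ = C' ^ θ * D ^ (m * θ) := by
        rw [Real.mul_rpow (by positivity) hDm.le, ← Real.rpow_mul hD0.le]
      _ ≤ C' * D ^ (m * θ) := by
        gcongr
        calc C' ^ θ ≤ C' ^ (1 : ℝ) :=
              Real.rpow_le_rpow_of_exponent_le hC'1 hexp1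
          _ = C' := Real.rpow_one _
  -- the number of boxes
  set J : ℝ := ((2 * R + 5) / h) ^ (l + 1) with hJ
  have hJ0 : 0 < J := by positivity
  have hTJ : (T.card : ℝ) ≤ J := by
    obtain ⟨T', hT'1, hT'2⟩ := PC.count_boxes (l := l) hR1 hh0 hh1 hh0 hh1
    have h1 : T ⊆ T' := by
      intro z hz
      obtain ⟨y, hy, rfl⟩ := Finset.mem_image.1 hz
      exact hT'1 (u y) (hRb _ (hu y hy).1)
    calc (T.card : ℝ) ≤ T'.card := by exact_mod_cast Finset.card_le_card h1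
      _ ≤ _ := hT'2
      _ = J := by
        rw [hJ, div_pow, pow_succ h l, mul_comm h]
  have hJp : J ^ (1 - θ) ≤ c2 * D ^ (1 / (r : ℝ)) := by
    have h1 : 1 - θ = 1 / ((l + 1 : ℕ) : ℝ) := by rw [hθ]; ring
    rw [h1, hJ, ← Real.rpow_natCast, ← Real.rpow_mul (by positivity), mul_one_div_cancel hk0.ne',
      Real.rpow_one, hh, hc2]
    have h2 : ((δ / 2) ^ (1 / (r : ℝ)))⁻¹ ≤ 2 * D ^ (1 / (r : ℝ)) := by
      have h3 : δ / 2 = (2 * D)⁻¹ := by rw [hδD, mul_inv]; ring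
      rw [h3, Real.inv_rpow (by positivity), inv_inv, Real.mul_rpow (by norm_num) hD0.le]
      gcongr
      calc (2:ℝ) ^ (1 / (r : ℝ)) ≤ 2 ^ (1 : ℝ) := by
            apply Real.rpow_le_rpow_of_exponent_le (by norm_num)
            rw [div_le_one hr0]
            exact_mod_cast hr
        _ = 2 := Real.rpow_one _
    calc (2 * R + 5) / (b * (δ / 2) ^ (1 / (r : ℝ)))
        = (2 * R + 5) / b * ((δ / 2) ^ (1 / (r : ℝ)))⁻¹ := by
          field_simp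
      _ ≤ (2 * R + 5) / b * (2 * D ^ (1 / (r : ℝ))) := by gcongr
      _ = _ := by ring
  have hsum : ∑ z ∈ T, ((Y z).card : ℝ) = q := by
    have h1 : X.card = ∑ z ∈ T, (Y z).card :=
      Finset.card_eq_sum_card_fiberwise (f := fun x => PC.bx h h (u x))
        (fun x hx => Finset.mem_image_of_mem _ hx)
    rw [hq, h1]
    push_cast
    rfl
  have hsumr := sum_rpow_le T (fun z => ((Y z).card : ℝ)) (fun _ _ => Nat.cast_nonneg _) hsum
    (by linarith) hTJ hJ0 hexp hexp1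
  have hterm : ∀ z ∈ T, ((N z + 1 : ℕ) : ℝ) ≤ c1 * (A * x) ^ 2 * ((Y z).card : ℝ) ^ θ := by
    intro z hz
    have h1 := (hγ z hz).2.2.2
    have hW1 : (1 : ℝ) ≤ (W z).card := by
      exact_mod_cast ((hYne z hz).image (fun x => WithLp.toLp 2 (fun j => evl (p z j) (u x)))).card_pos
    have hWY : ((W z).card : ℝ) ≤ (Y z).card := by exact_mod_cast Finset.card_image_le
    have hYq : ((Y z).card : ℝ) ≤ q := by
      rw [hq]; exact_mod_cast Finset.card_filter_le _ _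
    have h2 : Real.log (W z).card ≤ Real.log q :=
      Real.log_le_log (by linarith) (hWY.trans hYq)
    have h3 : 0 ≤ Real.log (W z).card := Real.log_nonneg hW1
    have h4 : 1 + Real.log (W z).card ≤ A * x := by linarith
    have h5 : ((W z).card : ℝ) ^ θ ≤ ((Y z).card : ℝ) ^ θ := by gcongr
    have h6 : (1 : ℝ) ≤ ((Y z).card : ℝ) ^ θ := Real.one_le_rpow (hW1.trans hWY) hexp
    have h7 : 1 ≤ (A * x) ^ 2 := one_le_pow₀ (one_le_mul_of_one_le_of_one_le hA0 hx1)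
    have hc1' : 0 ≤ c1 - 1 := by
      rw [hc1, add_sub_cancel_right]; positivity
    push_cast
    calc (N z : ℝ) + 1 ≤ (c1 - 1) * (1 + Real.log (W z).card) ^ 2 * ((W z).card : ℝ) ^ θ + 1 := by
          gcongr
      _ ≤ (c1 - 1) * (A * x) ^ 2 * ((Y z).card : ℝ) ^ θ + 1 := by gcongr
      _ ≤ (c1 - 1) * (A * x) ^ 2 * ((Y z).card : ℝ) ^ θ + (A * x) ^ 2 * ((Y z).card : ℝ) ^ θ := by
          have := one_le_mul_of_one_le_of_one_le h7 h6
          linarith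
      _ = _ := by ring
  push_cast
  have hterm' : ∀ z ∈ T, ((N z : ℝ) + 1) ≤ c1 * (A * x) ^ 2 * ((Y z).card : ℝ) ^ θ := by
    intro z hz
    have := hterm z hz
    push_cast at this
    exact this
  have hDsplit : D ^ (m * θ + 1 / (r : ℝ)) = D ^ (m * θ) * D ^ (1 / (r : ℝ)) :=
    Real.rpow_add hD0 _ _
  have hc1p : 0 < c1 := by positivity
  calc ∑ z ∈ T, ((N z : ℝ) + 1) ≤ ∑ z ∈ T, c1 * (A * x) ^ 2 * ((Y z).card : ℝ) ^ θ :=
        Finset.sum_le_sum hterm'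
    _ = c1 * (A * x) ^ 2 * ∑ z ∈ T, ((Y z).card : ℝ) ^ θ := by rw [Finset.mul_sum]
    _ ≤ c1 * (A * x) ^ 2 * (2 * (J ^ (1 - θ) * q ^ θ)) := by gcongr
    _ ≤ c1 * (A * x) ^ 2 * (2 * ((c2 * D ^ (1 / (r : ℝ))) * (C' * D ^ (m * θ)))) := by gcongr
    _ = c1 * A ^ 2 * (2 * (c2 * C')) * x ^ 2 * D ^ (m * θ + 1 / (r : ℝ)) := by
        rw [hDsplit]; ring

/-- **Kakeya sets whose lines meet a set of packing dimension `m`** on countably many images of
open subsets of `ℝ^(l+1)` under maps of class `C^r`. -/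
theorem dim_image {d l r : ℕ} (hd : 2 ≤ d) (hr : 1 ≤ r) {U : ℕ → Set (E (l + 1))}
    (hU : ∀ j, IsOpen (U j)) {φ : ℕ → E (l + 1) → E (d + 1)}
    (hφ : ∀ j, ContDiffOn ℝ r (φ j) (U j)) {Z : Set (E (d + 1))}
    (hZU : Z ⊆ ⋃ j, φ j '' U j) {m : ℝ} (hm : 0 ≤ m)
    (hZ : ∀ m' > m, ∃ Z' : ℕ → Set (E (d + 1)), Z ⊆ ⋃ j, Z' j ∧ ∀ j, CoverLE (Z' j) m')
    {S : Set (sphere (0 : E (d + 1)) 1)}
    (hS : (volume : Measure (E (d + 1))).toSphere S ≠ 0) {K : Set (E (d + 1))}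
    (hK : ∀ e ∈ S, ∃ z ∈ Z, volume {t : ℝ | z + t • (e : E (d + 1)) ∈ K} ≠ 0) :
    ENNReal.ofReal ((d:ℝ) + 1 - (m * (1 - 1 / ((l + 1 : ℕ) : ℝ)) + 1 / r)) ≤ dimH K := by
  classical
  have hexp1 : 1 - 1 / ((l + 1 : ℕ) : ℝ) ≤ 1 := by
    have : 0 ≤ 1 / ((l + 1 : ℕ) : ℝ) := by positivity
    linarith
  have hex : ∀ j, ∃ Q : ℕ → Set (E (l + 1)), (∀ i, IsCompact (Q i) ∧ Q i ⊆ U j) ∧
      U j = ⋃ i, Q i := by
    intro j
    obtain ⟨Q, h1, h2, h3, _⟩ := (hU j).exists_iUnion_isClosed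
    refine ⟨fun i => Q (Nat.unpair i).1 ∩ closedBall 0 (Nat.unpair i).2, fun i =>
      ⟨(isCompact_closedBall _ _).inter_left (h1 _), inter_subset_left.trans (h2 _)⟩, ?_⟩
    apply Subset.antisymm
    · intro x hx
      rw [← h3] at hx
      obtain ⟨i, hi⟩ := mem_iUnion.1 hx
      obtain ⟨N, hN⟩ := exists_nat_ge ‖x‖
      refine mem_iUnion.2 ⟨Nat.pair i N, ?_⟩
      simp only [Nat.unpair_pair, mem_inter_iff, mem_closedBall, dist_zero_right]
      exact ⟨hi, hN⟩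
    · exact iUnion_subset (fun i => inter_subset_left.trans (h2 _))
  choose Q hQ hQU using hex
  have hz : ∀ e : sphere (0 : E (d + 1)) 1, ∃ z : E (d + 1), e ∈ S →
      z ∈ Z ∧ volume {t : ℝ | z + t • (e : E (d + 1)) ∈ K} ≠ 0 := by
    intro e
    by_cases he : e ∈ S
    · obtain ⟨z, h1, h2⟩ := hK e he
      exact ⟨z, fun _ => ⟨h1, h2⟩⟩
    · exact ⟨0, fun h => absurd h he⟩
  choose a ha using hz
  have key : ∀ m' > m, ENNReal.ofReal ((d:ℝ) + 1 - (m' * (1 - 1 / ((l + 1 : ℕ) : ℝ)) + 1 / r)) ≤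
      dimH K := by
    intro m' hm'
    obtain ⟨Z', hZZ', hZ'⟩ := hZ m' hm'
    set S' : ℕ × ℕ × ℕ → Set (sphere (0 : E (d + 1)) 1) := fun q =>
      {e | e ∈ S ∧ a e ∈ Z' q.1 ∩ φ q.2.1 '' Q q.2.1 q.2.2} with hS'
    have hcov : S ⊆ ⋃ q, S' q := by
      intro e he
      obtain ⟨j, hj⟩ := mem_iUnion.1 (hZZ' (ha e he).1)
      obtain ⟨j', hj'⟩ := mem_iUnion.1 (hZU (ha e he).1)
      rw [hQU j', image_iUnion] at hj'
      obtain ⟨i, hi⟩ := mem_iUnion.1 hj'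
      exact mem_iUnion.2 ⟨(j, j', i), he, hj, hi⟩
    have hex : ∃ q, (volume : Measure (E (d + 1))).toSphere (S' q) ≠ 0 := by
      by_contra hcon
      push Not at hcon
      exact hS (measure_mono_null hcov (measure_iUnion_null hcon))
    obtain ⟨q, hq⟩ := hex
    have h1 := maxHyp_image hd hr (hU q.2.1) (hφ q.2.1) (hQ q.2.1 q.2.2).1 (hQ q.2.1 q.2.2).2
      (Z := Z' q.1 ∩ φ q.2.1 '' Q q.2.1 q.2.2) inter_subset_right
      (m := m') (by linarith) ((hZ' q.1).mono inter_subset_left) (S := S' q) (a := a)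
      (fun e he => he.2)
    exact Tr.dim_ge hq h1 (fun e he => (ha e he.1).2)
  refine ENNReal.le_of_forall_pos_le_add ?_
  intro ε hε _
  have h1 := key (m + ε) (by have : (0 : ℝ) < ε := hε; linarith)
  calc ENNReal.ofReal ((d:ℝ) + 1 - (m * (1 - 1 / ((l + 1 : ℕ) : ℝ)) + 1 / r))
      ≤ ENNReal.ofReal (((d:ℝ) + 1 - ((m + ε) * (1 - 1 / ((l + 1 : ℕ) : ℝ)) + 1 / r)) + ε) := by
        apply ENNReal.ofReal_le_ofReal
        have h2 : (0 : ℝ) < ε := hε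
        have h3 : (ε : ℝ) * (1 - 1 / ((l + 1 : ℕ) : ℝ)) ≤ ε := mul_le_of_le_one_right h2.le hexp1
        linarith
    _ ≤ ENNReal.ofReal ((d:ℝ) + 1 - ((m + ε) * (1 - 1 / ((l + 1 : ℕ) : ℝ)) + 1 / r)) +
        ENNReal.ofReal ε := ENNReal.ofReal_add_le
    _ ≤ dimH K + ε := by
        gcongr
        simp

end Pool.Agent.N240.W
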