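import Pool.Agent.N240.W.Max

set_option autoImplicit false

/-! Taylor polynomials of real functions on `ℝ^n`, as polynomials in `n` variables (after
`Pool.Agent.R251.Lam.Tay`), and polynomial approximation of smooth maps on small cubes. -/

open MeasureTheory Set Filter Topology ENNReal NNReal Metric

namespace Pool.Agent.N240.W

variable {n : ℕ}

/-- value of a polynomial at a point of Euclidean space -/
noncomputable def evl (p : MvPolynomial (Fin n) ℝ) (x : EuclideanSpace ℝ (Fin n)) : ℝ :=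
  MvPolynomial.eval (fun l => x l) p

/-- `v ↦ f (v - w, …, v - w)` as a polynomial. -/
noncomputable def mp {j : ℕ}
    (f : ContinuousMultilinearMap ℝ (fun _ : Fin j => EuclideanSpace ℝ (Fin n)) ℝ)
    (w : EuclideanSpace ℝ (Fin n)) : MvPolynomial (Fin n) ℝ :=
  ∑ r : Fin j → Fin n, MvPolynomial.C (f (fun i => EuclideanSpace.single (r i) (1:ℝ))) *
    ∏ i, (MvPolynomial.X (r i) - MvPolynomial.C (w (r i)))

theorem mp_eval {j : ℕ}
    (f : ContinuousMultilinearMap ℝ (fun _ : Fin j => EuclideanSpace ℝ (Fin n)) ℝ)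
    (w v : EuclideanSpace ℝ (Fin n)) :
    evl (mp f w) v = f (fun _ => v - w) := by
  classical
  have hu : v - w = ∑ c, (v c - w c) • EuclideanSpace.single c (1:ℝ) := by
    ext i
    simp [Finset.sum_apply, Pi.single_apply]
  have h1 : f (fun _ => v - w) = ∑ r : Fin j → Fin n, (∏ i, (v (r i) - w (r i))) •
      f (fun i => EuclideanSpace.single (r i) (1:ℝ)) := by
    rw [hu, ContinuousMultilinearMap.map_sum]
    refine Finset.sum_congr rfl fun r _ => ?_
    exact f.map_smul_univ (fun i => v (r i) - w (r i)) (fun i => EuclideanSpace.single (r i) (1:ℝ))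
  rw [h1, mp, evl]
  simp [map_sum, map_mul, map_prod, mul_comm]

theorem mp_deg {j : ℕ}
    (f : ContinuousMultilinearMap ℝ (fun _ : Fin j => EuclideanSpace ℝ (Fin n)) ℝ)
    (w : EuclideanSpace ℝ (Fin n)) : (mp f w).totalDegree ≤ j := by
  apply MvPolynomial.totalDegree_finsetSum_le
  intro r _
  refine (MvPolynomial.totalDegree_mul _ _).trans ?_
  rw [MvPolynomial.totalDegree_C, zero_add]
  refine (MvPolynomial.totalDegree_finsetProd _ _).trans ?_
  calc ∑ i : Fin j, (MvPolynomial.X (r i) - MvPolynomial.C (w (r i)) :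
        MvPolynomial (Fin n) ℝ).totalDegree
      ≤ ∑ _i : Fin j, 1 := by
        refine Finset.sum_le_sum fun i _ => ?_
        refine (MvPolynomial.totalDegree_sub _ _).trans ?_
        rw [MvPolynomial.totalDegree_X, MvPolynomial.totalDegree_C]
        simp
    _ = j := by simp

/-- The Taylor polynomial of order `k` of `F` at `w`. -/
noncomputable def tp (F : EuclideanSpace ℝ (Fin n) → ℝ) (k : ℕ) (w : EuclideanSpace ℝ (Fin n)) :
    MvPolynomial (Fin n) ℝ :=
  ∑ j ∈ Finset.range (k + 1), MvPolynomial.C ((j.factorial : ℝ)⁻¹) * mp (iteratedFDeriv ℝ j F w) w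

theorem tp_deg (F : EuclideanSpace ℝ (Fin n) → ℝ) (k : ℕ) (w : EuclideanSpace ℝ (Fin n)) :
    (tp F k w).totalDegree ≤ k := by
  apply MvPolynomial.totalDegree_finsetSum_le
  intro j hj
  refine (MvPolynomial.totalDegree_mul _ _).trans ?_
  rw [MvPolynomial.totalDegree_C, zero_add]
  exact (mp_deg _ _).trans (Nat.lt_succ_iff.1 (Finset.mem_range.1 hj))

theorem tp_eval (F : EuclideanSpace ℝ (Fin n) → ℝ) (k : ℕ) (w v : EuclideanSpace ℝ (Fin n)) :
    evl (tp F k w) v =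
      ∑ j ∈ Finset.range (k + 1), (j.factorial : ℝ)⁻¹ • iteratedFDeriv ℝ j F w (fun _ => v - w) := by
  have h : ∀ (j : ℕ), MvPolynomial.eval (fun l => v l)
      (MvPolynomial.C ((j.factorial : ℝ)⁻¹) * mp (iteratedFDeriv ℝ j F w) w) =
      (j.factorial : ℝ)⁻¹ • iteratedFDeriv ℝ j F w (fun _ => v - w) := by
    intro j
    have := mp_eval (iteratedFDeriv ℝ j F w) w v
    unfold evl at this
    rw [map_mul, MvPolynomial.eval_C, this, smul_eq_mul]
  unfold evl tp
  rw [map_sum]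
  exact Finset.sum_congr rfl fun j _ => h j

/-- Taylor's formula with the derivatives of order `k + 1` bounded on a convex set. -/
theorem taylor {F : EuclideanSpace ℝ (Fin n) → ℝ} {k : ℕ} {B : Set (EuclideanSpace ℝ (Fin n))}
    (hB : Convex ℝ B) (hF : ∀ x ∈ B, ContDiffAt ℝ (k + 1) F x) {A : ℝ}
    (hA : ∀ x ∈ B, ‖iteratedFDeriv ℝ (k + 1) F x‖ ≤ A) {v w : EuclideanSpace ℝ (Fin n)}
    (hv : v ∈ B) (hw : w ∈ B) : |F v - evl (tp F k w) v| ≤ A * ‖v - w‖ ^ (k + 1) := by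
  have hseg : ∀ t ∈ Icc (0:ℝ) 1, w + t • (v - w) ∈ B := by
    intro t ht
    have := hB hw hv (a := 1 - t) (b := t) (by linarith [ht.2]) ht.1 (by ring)
    convert this using 1
    rw [smul_sub, sub_smul, one_smul]; abel
  have h := map_add_eq_sum_add_integral_iteratedFDeriv (f := F) (x := w) (y := v - w) (n := k)
    (fun t ht => hF _ (hseg t ht))
  rw [add_sub_cancel] at h
  rw [tp_eval, h, add_sub_cancel_left, smul_eq_mul, abs_mul, abs_inv, Nat.abs_cast,
    ← Real.norm_eq_abs]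
  have hA0 : 0 ≤ A := (norm_nonneg _).trans (hA v hv)
  have hint : ‖∫ t in (0:ℝ)..1, (1 - t) ^ k • iteratedFDeriv ℝ (k + 1) F (w + t • (v - w))
      (fun _ => v - w)‖ ≤ (A * ‖v - w‖ ^ (k + 1)) * |(1:ℝ) - 0| := by
    apply intervalIntegral.norm_integral_le_of_norm_le_const
    intro t ht
    rw [uIoc_of_le zero_le_one] at ht
    have hin := hseg t ⟨ht.1.le, ht.2⟩
    rw [norm_smul, norm_pow, Real.norm_of_nonneg (by linarith [ht.2] : (0:ℝ) ≤ 1 - t)]
    have h1 : (1 - t) ^ k ≤ 1 := pow_le_one₀ (by linarith [ht.2]) (by linarith [ht.1])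
    have h2 : ‖iteratedFDeriv ℝ (k + 1) F (w + t • (v - w)) (fun _ => v - w)‖ ≤
        A * ‖v - w‖ ^ (k + 1) := by
      refine (ContinuousMultilinearMap.le_opNorm _ _).trans ?_
      rw [Finset.prod_const, Finset.card_univ, Fintype.card_fin]
      exact mul_le_mul_of_nonneg_right (hA _ hin) (by positivity)
    calc (1 - t) ^ k * ‖iteratedFDeriv ℝ (k + 1) F (w + t • (v - w)) (fun _ => v - w)‖
        ≤ 1 * (A * ‖v - w‖ ^ (k + 1)) := mul_le_mul h1 h2 (norm_nonneg _) zero_le_one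
      _ = _ := one_mul _
  rw [sub_zero, abs_one, mul_one] at hint
  have hf : ((k.factorial : ℝ))⁻¹ ≤ 1 := inv_le_one_of_one_le₀ (by exact_mod_cast Nat.factorial_pos k)
  calc _ ≤ 1 * (A * ‖v - w‖ ^ (k + 1)) := mul_le_mul hf hint (norm_nonneg _) zero_le_one
    _ = _ := one_mul _

/-- Local polynomial approximation of a map of class `C^r` on a compact set. -/
theorem local_poly {l d r : ℕ} (hr : 1 ≤ r) {U : Set (E (l + 1))} (hU : IsOpen U)
    {φ : E (l + 1) → E (d + 1)} (hφ : ContDiffOn ℝ r φ U) {Q : Set (E (l + 1))} (hQ : IsCompact Q)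
    (hQU : Q ⊆ U) : ∃ a : ℝ, 0 < a ∧ a ≤ 1 ∧ ∀ δ : ℝ, 0 < δ → δ ≤ 1 → ∀ u₀ ∈ Q,
      ∃ p : Fin (d + 1) → MvPolynomial (Fin (l + 1)) ℝ, (∀ j, (p j).totalDegree ≤ r) ∧
        ∀ u : E (l + 1), ‖u - u₀‖ ≤ ((l : ℝ) + 1) * (a * δ ^ (1 / (r : ℝ))) →
          ‖φ u - WithLp.toLp 2 (fun j => evl (p j) u)‖ ≤ δ := by
  classical
  obtain ⟨ρ, hρ, hρU⟩ := hQ.exists_cthickening_subset_open hU hQU
  set Q' := cthickening ρ Q with hQ'
  have hQ'c : IsCompact Q' := hQ.cthickening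
  obtain ⟨r', rfl⟩ : ∃ r', r = r' + 1 := ⟨r - 1, by omega⟩
  have hF : ∀ j : Fin (d + 1), ContDiffOn ℝ (r' + 1 : ℕ) (fun x => φ x j) U := by
    intro j
    exact (contDiffOn_euclidean.1 hφ) j
  have hA : ∀ j : Fin (d + 1), ∃ A : ℝ, ∀ x ∈ Q', ‖iteratedFDeriv ℝ (r' + 1) (fun x => φ x j) x‖ ≤ A := by
    intro j
    have h1 : ContinuousOn (iteratedFDerivWithin ℝ (r' + 1) (fun x => φ x j) U) U :=
      (hF j).continuousOn_iteratedFDerivWithin le_rfl hU.uniqueDiffOn
    have h2 : ContinuousOn (iteratedFDeriv ℝ (r' + 1) (fun x => φ x j)) U :=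
      h1.congr (fun x hx => (iteratedFDerivWithin_of_isOpen (r' + 1) hU hx).symm)
    obtain ⟨A, hA⟩ := (hQ'c.image_of_continuousOn (h2.mono hρU).norm).bddAbove
    exact ⟨A, fun x hx => hA (mem_image_of_mem _ hx)⟩
  choose A hA using hA
  set B : ℝ := 1 + ∑ j, |A j| with hB
  have hB1 : 1 ≤ B := by
    have : 0 ≤ ∑ j, |A j| := Finset.sum_nonneg fun j _ => abs_nonneg _
    linarith
  have hAB : ∀ j, A j ≤ B := by
    intro j
    have h1 := Finset.single_le_sum (f := fun j => |A j|) (fun j _ => abs_nonneg _) (Finset.mem_univ j)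
    have h2 := le_abs_self (A j)
    linarith
  have hl0 : (0:ℝ) < (l:ℝ) + 1 := by positivity
  have hd0 : (0:ℝ) < (d:ℝ) + 1 := by positivity
  set a : ℝ := min ρ 1 / (((l:ℝ) + 1) * (B * ((d:ℝ) + 1))) with ha
  have hmr : 0 < min ρ 1 := lt_min hρ one_pos
  have hBd : 1 ≤ B * ((d:ℝ) + 1) := by
    have : (0:ℝ) ≤ d := Nat.cast_nonneg _
    nlinarith
  have ha0 : 0 < a := by positivity
  have hla : ((l:ℝ) + 1) * a = min ρ 1 / (B * ((d:ℝ) + 1)) := by
    rw [ha]; field_simp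
  have hla1 : ((l:ℝ) + 1) * a ≤ 1 := by
    rw [hla, div_le_one (by positivity)]
    exact (min_le_right _ _).trans hBd
  have hlaρ : ((l:ℝ) + 1) * a ≤ ρ := by
    rw [hla, div_le_iff₀ (by positivity)]
    have h2 : min ρ 1 ≤ ρ := min_le_left _ _
    nlinarith
  have hlaB : B * (((l:ℝ) + 1) * a) ≤ 1 / ((d:ℝ) + 1) := by
    rw [hla, le_div_iff₀ hd0]
    have h2 : min ρ 1 ≤ 1 := min_le_right _ _
    calc B * (min ρ 1 / (B * ((d:ℝ) + 1))) * ((d:ℝ) + 1) = min ρ 1 := by field_simp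
      _ ≤ 1 := h2
  have ha1 : a ≤ 1 := by
    have : (0:ℝ) ≤ l := Nat.cast_nonneg _
    nlinarith
  refine ⟨a, ha0, ha1, ?_⟩
  intro δ hδ hδ1 u₀ hu₀
  have hr0 : (0:ℝ) < ((r' + 1 : ℕ) : ℝ) := by positivity
  set s : ℝ := δ ^ (1 / ((r' + 1 : ℕ):ℝ)) with hs
  have hs0 : 0 < s := by positivity
  have hs1 : s ≤ 1 := Real.rpow_le_one hδ.le hδ1 (by positivity)
  have hsr : s ^ (r' + 1) = δ := by
    rw [hs, ← Real.rpow_natCast, ← Real.rpow_mul hδ.le, one_div, inv_mul_cancel₀ hr0.ne',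
      Real.rpow_one]
  refine ⟨fun j => tp (fun x => φ x j) r' u₀, fun j => (tp_deg _ _ _).trans (Nat.le_succ _), ?_⟩
  intro u hu
  have hu' : ‖u - u₀‖ ≤ (((l:ℝ) + 1) * a) * s := by
    rw [mul_assoc]; exact hu
  have hball : closedBall u₀ ρ ⊆ Q' := by
    intro x hx
    exact mem_cthickening_of_dist_le _ u₀ _ _ hu₀ (mem_closedBall.1 hx)
  have hum : u ∈ closedBall u₀ ρ := by
    rw [mem_closedBall, dist_eq_norm]
    refine hu'.trans ?_
    nlinarith
  apply le_trans (Pool.Agent.Y245.PC.norm_le_coord (l := d) (ρ := δ / ((d:ℝ) + 1)) (by positivity) ?_)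
  · rw [mul_div_cancel₀ _ hd0.ne']
  · intro j
    have h1 := taylor (F := fun x => φ x j) (k := r') (convex_closedBall u₀ ρ)
      (fun x hx => (hF j).contDiffAt (hU.mem_nhds (hρU (hball hx))))
      (fun x hx => (hA j x (hball hx)).trans (hAB j)) hum (mem_closedBall_self hρ.le)
    have h2 : (φ u - WithLp.toLp 2 (fun j => evl (tp (fun x => φ x j) r' u₀) u)) j =
        φ u j - evl (tp (fun x => φ x j) r' u₀) u := by
      simp
    rw [h2]
    refine h1.trans ?_
    calc B * ‖u - u₀‖ ^ (r' + 1) ≤ B * ((((l:ℝ) + 1) * a) * s) ^ (r' + 1) := by gcongr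
      _ = B * ((((l:ℝ) + 1) * a) ^ (r' + 1) * δ) := by rw [mul_pow, hsr]
      _ ≤ B * ((((l:ℝ) + 1) * a) * δ) := by
          gcongr
          exact pow_le_of_le_one (by positivity) hla1 (by omega)
      _ = (B * (((l:ℝ) + 1) * a)) * δ := by ring
      _ ≤ 1 / ((d:ℝ) + 1) * δ := by gcongr
      _ = δ / ((d:ℝ) + 1) := by ring

end Pool.Agent.N240.W
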