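import Pool.Agent.N240.W.Walk
import Pool.Agent.H247R2.Warren

set_option autoImplicit false

/-!
# Half-spaces and points of a `k`-dimensional affine subspace: the numbers of dichotomies
-/

open Finset

namespace Pool.Agent.N240.W

theorem card_le_pow {β : Type*} [Fintype β] [DecidableEq β] (𝒜 : Finset (Finset β)) (k : ℕ)
    (h : ∀ s, 𝒜.Shatters s → s.card ≤ k) : 𝒜.card ≤ (Fintype.card β + 1) ^ k := by
  have h1 := Finset.card_le_card_shatterer 𝒜
  have h2 : 𝒜.shatterer.card ≤ _ := Finset.card_shatterer_le_sum_vcDim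
  have h3 : 𝒜.vcDim ≤ k := by
    unfold Finset.vcDim
    exact Finset.sup_le fun s hs => h s (Finset.mem_shatterer.1 hs)
  refine h1.trans (h2.trans ?_)
  calc ∑ j ∈ Finset.Iic 𝒜.vcDim, (Fintype.card β).choose j
      ≤ ∑ j ∈ Finset.Iic k, (Fintype.card β).choose j :=
        Finset.sum_le_sum_of_subset (Finset.Iic_subset_Iic.2 h3)
    _ ≤ ∑ j ∈ Finset.range (k + 1), (Fintype.card β) ^ j * 1 ^ (k - j) * k.choose j := by
        have e : Finset.Iic k = Finset.range (k + 1) := by
          ext j; simp
        rw [e]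
        refine Finset.sum_le_sum fun j hj => ?_
        rw [Finset.mem_range] at hj
        have h4 := Nat.choose_le_pow (Fintype.card β) j
        have h5 : 1 ≤ k.choose j := Nat.choose_pos (by omega)
        calc (Fintype.card β).choose j ≤ (Fintype.card β) ^ j := by
              exact Nat.choose_le_pow _ _
          _ = (Fintype.card β) ^ j * 1 ^ (k - j) * 1 := by simp
          _ ≤ _ := Nat.mul_le_mul_left _ h5
    _ = (Fintype.card β + 1) ^ k := by rw [add_pow]; rfl

variable {n : ℕ}

/-- Euclidean space -/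
abbrev E (n : ℕ) : Type := EuclideanSpace ℝ (Fin n)

open Classical in
/-- The part of `P` in an open half-space. -/
noncomputable def half (P : Finset (E n)) (ν : E n) (c : ℝ) : Finset (E n) :=
  P.filter (fun x => c < inner ℝ ν x)

theorem mem_half {P : Finset (E n)} {ν : E n} {c : ℝ} {x : E n} :
    x ∈ half P ν c ↔ x ∈ P ∧ c < inner ℝ ν x := by
  classical
  unfold half
  simp

open Classical in
/-- All dichotomies by half-spaces. -/
noncomputable def fam (P : Finset (E n)) : Finset (Finset (E n)) :=
  P.powerset.filter (fun F => ∃ ν c, F = half P ν c)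

theorem mem_fam {P F : Finset (E n)} : F ∈ fam P ↔ ∃ ν c, F = half P ν c := by
  classical
  unfold fam
  rw [Finset.mem_filter, Finset.mem_powerset]
  constructor
  · rintro ⟨-, h⟩; exact h
  · rintro ⟨ν, c, h⟩
    refine ⟨?_, ν, c, h⟩
    rw [h]
    intro x hx
    exact (mem_half.1 hx).1

open MvPolynomial Classical in
/-- The dual shatter function of half-spaces on the image of a polynomial map (Warren). -/
theorem dual_poly {k D : ℕ} {P : Finset (E n)} (p : Fin n → MvPolynomial (Fin k) ℝ)
    (hp : ∀ j, (p j).totalDegree ≤ D) (hP : ∀ x ∈ P, ∃ u : Fin k → ℝ, ∀ j, x j = eval u (p j)) :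
    Dual ((4 * D + 1) ^ k) k P (fam P) := by
  intro m f hf
  have hf' : ∀ i, ∃ ν c, f i = half P ν c := fun i => mem_fam.1 (hf i)
  choose ν c hfν using hf'
  set g : Fin m → MvPolynomial (Fin k) ℝ := fun i => (∑ j, C (ν i j) * p j) - C (c i) with hg
  have hgd : ∀ i, (g i).totalDegree ≤ D := by
    intro i
    refine (totalDegree_sub _ _).trans ?_
    rw [totalDegree_C]
    refine max_le ?_ (Nat.zero_le _)
    refine totalDegree_finsetSum_le ?_
    intro j _
    refine (totalDegree_mul _ _).trans ?_
    rw [totalDegree_C, zero_add]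
    exact hp j
  have hge : ∀ (i : Fin m) (x : E n) (u : Fin k → ℝ), (∀ j, x j = eval u (p j)) →
      eval u (g i) = inner ℝ (ν i) x - c i := by
    intro i x u hu
    simp only [hg, map_sub, map_sum, map_mul, eval_C]
    congr 1
    rw [PiLp.inner_apply]
    refine Finset.sum_congr rfl fun j _ => ?_
    rw [← hu j]
    simp [mul_comm]
  have hu : ∀ x : E n, ∃ u : Fin k → ℝ, x ∈ P → ∀ j, x j = eval u (p j) := by
    intro x
    by_cases hx : x ∈ P
    · obtain ⟨u, hu⟩ := hP x hx
      exact ⟨u, fun _ => hu⟩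
    · exact ⟨0, fun h => absurd h hx⟩
  choose u hu using hu
  have h1 := Pool.Agent.H247R2.Warren.sign_count g D hgd
    (P.image (fun x => fun i => SignType.sign (eval (u x) (g i)))) (by
      intro σ hσ
      obtain ⟨x, hx, rfl⟩ := Finset.mem_image.1 hσ
      exact ⟨u x, fun _ => rfl⟩)
  have h2 : (P.image (fun x => (Finset.univ : Finset (Fin m)).filter (fun i => x ∈ f i))) =
      (P.image (fun x => fun i => SignType.sign (eval (u x) (g i)))).image
        (fun σ => (Finset.univ : Finset (Fin m)).filter (fun i => σ i = 1)) := by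
    rw [Finset.image_image]
    refine Finset.image_congr ?_
    intro x hx
    have hx' : x ∈ P := hx
    simp only [Function.comp_apply]
    refine Finset.filter_congr fun i _ => ?_
    rw [hfν i, mem_half, sign_eq_one_iff, hge i x (u x) (hu x hx'), sub_pos]
    simp [hx']
  rw [h2]
  refine Finset.card_image_le.trans (h1.trans ?_)
  rw [Fintype.card_fin, Fintype.card_fin, ← mul_pow]
  refine Nat.pow_le_pow_left ?_ k
  nlinarith

theorem card_fam {V : AffineSubspace ℝ (E n)} {k : ℕ} (hk : Module.finrank ℝ V.direction ≤ k)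
    {P : Finset (E n)} (hP : ∀ x ∈ P, x ∈ V) : (fam P).card ≤ (P.card + 1) ^ (k + 1) := by
  classical
  set tr : Finset (E n) → Finset P := fun F => Finset.univ.filter (fun x : P => (x : E n) ∈ F) with htr
  have hinj : Set.InjOn tr (fam P : Set (Finset (E n))) := by
    intro F hF G hG hFG
    have hF' : F ⊆ P := by
      obtain ⟨ν, c, rfl⟩ := mem_fam.1 hF
      exact fun x hx => (mem_half.1 hx).1
    have hG' : G ⊆ P := by
      obtain ⟨ν, c, rfl⟩ := mem_fam.1 hG
      exact fun x hx => (mem_half.1 hx).1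
    ext x
    constructor
    · intro hx
      have h1 : (⟨x, hF' hx⟩ : P) ∈ tr F := by simp [htr, hx]
      rw [hFG] at h1
      simpa [htr] using h1
    · intro hx
      have h1 : (⟨x, hG' hx⟩ : P) ∈ tr G := by simp [htr, hx]
      rw [← hFG] at h1
      simpa [htr] using h1
  rw [← Finset.card_image_of_injOn hinj]
  refine (card_le_pow _ (k + 1) ?_).trans (by rw [Fintype.card_coe])
  intro s hs
  by_contra hcon
  push Not at hcon
  have hna : ¬ AffineIndependent ℝ (fun x : s => ((x : P) : E n)) := by
    intro h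
    have h1 := h.card_le_finrank_succ
    rw [Fintype.card_coe] at h1
    have h2 : vectorSpan ℝ (Set.range (fun x : s => ((x : P) : E n))) ≤ V.direction := by
      rw [AffineSubspace.direction_eq_vectorSpan]
      apply vectorSpan_mono
      rintro _ ⟨x, rfl⟩
      exact hP _ x.1.2
    have h3 := Submodule.finrank_mono h2
    omega
  obtain ⟨I, p, hp1, hp2⟩ := Convex.radon_partition hna
  obtain ⟨u, hu, hut⟩ := hs (t := (Finset.univ.filter (fun x : s => x ∈ I)).image Subtype.val) (by
    intro i hi
    obtain ⟨j, -, rfl⟩ := Finset.mem_image.1 hi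
    exact j.2)
  obtain ⟨F, hF, rfl⟩ := Finset.mem_image.1 hu
  obtain ⟨ν, c, rfl⟩ := mem_fam.1 hF
  have hmem : ∀ x : s, (c < inner ℝ ν ((x : P) : E n) ↔ x ∈ I) := by
    intro x
    have h1 := congrArg (fun A : Finset P => (x : P) ∈ A) hut
    simp only [Finset.mem_inter, x.2, true_and, eq_iff_iff] at h1
    rw [htr] at h1
    simp only [Finset.mem_filter, Finset.mem_univ, true_and, mem_half, Finset.mem_image] at h1
    constructor
    · intro h
      obtain ⟨j, hj, hjx⟩ := h1.1 ⟨x.1.2, h⟩
      rw [← Subtype.ext hjx]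
      exact hj
    · intro h
      exact (h1.2 ⟨x, h, rfl⟩).2
  have c1 : p ∈ {y : E n | c < inner ℝ ν y} := by
    refine convexHull_min ?_ ?_ hp1
    · rintro _ ⟨x, hx, rfl⟩
      exact (hmem x).2 hx
    · exact convex_halfSpace_gt (innerSL ℝ ν).toLinearMap.isLinear c
  have c2 : p ∈ {y : E n | inner ℝ ν y ≤ c} := by
    refine convexHull_min ?_ ?_ hp2
    · rintro _ ⟨x, hx, rfl⟩
      have h1 : ¬ (c < inner ℝ ν ((x : P) : E n)) := fun h => hx ((hmem x).1 h)
      exact not_lt.1 h1
    · exact convex_halfSpace_le (innerSL ℝ ν).toLinearMap.isLinear c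
  exact absurd (show c < inner ℝ ν p from c1) (not_lt.2 c2)

end Pool.Agent.N240.W
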