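import Mathlib

set_option autoImplicit false

/-!
# Spanning walks of low crossing number (Welzl's theorem, abstract form)
-/

open Finset

namespace Pool.Agent.N240.W

variable {α : Type*} [DecidableEq α]

/-- `F` separates `x` and `y`. -/
def sep (F : Finset α) (x y : α) : Prop := ¬ (x ∈ F ↔ y ∈ F)

instance (F : Finset α) (x y : α) : Decidable (sep F x y) := by unfold sep; infer_instance

theorem sep_comm (F : Finset α) (x y : α) : sep F x y ↔ sep F y x := by
  unfold sep; tauto

/-- Number of the steps of the walk `l` which are separated by `F`. -/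
def cr (F : Finset α) : List α → ℕ
  | [] => 0
  | [_] => 0
  | (x :: y :: l) => (if sep F x y then 1 else 0) + cr F (y :: l)

theorem cr_insert (F : Finset α) (s t : List α) (x y : α) :
    cr F (s ++ y :: x :: y :: t) = cr F (s ++ y :: t) + 2 * (if sep F x y then 1 else 0) := by
  induction s with
  | nil =>
    simp only [List.nil_append, cr, sep_comm F y x]
    ring
  | cons a s ih =>
    cases s with
    | nil =>
      simp only [List.nil_append, List.cons_append, cr] at ih ⊢
      omega
    | cons b s =>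
      simp only [List.cons_append, cr] at ih ⊢
      omega

/-- The hypothesis on the dual shatter function. -/
def Dual (A k : ℕ) (P : Finset α) (𝓕 : Finset (Finset α)) : Prop :=
  ∀ (m : ℕ) (f : Fin m → Finset α), (∀ i, f i ∈ 𝓕) →
    (P.image (fun x => (Finset.univ : Finset (Fin m)).filter (fun i => x ∈ f i))).card ≤
      A * (m + 1) ^ k

theorem Dual.mono {A k : ℕ} {P Q : Finset α} {𝓕 : Finset (Finset α)} (h : Dual A k P 𝓕)
    (hQ : Q ⊆ P) : Dual A k Q 𝓕 := by
  intro m f hf
  exact (Finset.card_le_card (Finset.image_subset_image hQ)).trans (h m f hf)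

/-- The proportion of the weight of an edge among `q` points. -/
noncomputable def th (A k q : ℕ) : ℝ := 4 * Real.log q / ((q : ℝ) ^ (1 / (k : ℝ)) / A)

theorem th_nonneg (A k q : ℕ) : 0 ≤ th A k q := by
  unfold th
  have := Real.log_natCast_nonneg q
  positivity

theorem pow_half {A q k : ℕ} (hA : 1 ≤ A) (hq : 2 ≤ q) (h : th A k q < 1) :
    4 < (q : ℝ) ^ (1 / (k : ℝ)) / A := by
  have hq0 : (0 : ℝ) < q := by positivity
  have hA0 : (1 : ℝ) ≤ A := by exact_mod_cast hA
  have hp : 0 < (q : ℝ) ^ (1 / (k : ℝ)) / A :=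
    div_pos (Real.rpow_pos_of_pos hq0 _) (by linarith)
  unfold th at h
  rw [div_lt_one hp] at h
  rcases Nat.lt_or_ge q 3 with h3 | h3
  · have : q = 2 := by omega
    subst this
    exfalso
    have h4 : ((2 : ℕ) : ℝ) ^ (1 / (k : ℝ)) ≤ 2 := by
      rcases Nat.eq_zero_or_pos k with hk | hk
      · subst hk; simp
      · have hk1 : (1 : ℝ) ≤ k := by exact_mod_cast hk
        calc ((2 : ℕ) : ℝ) ^ (1 / (k : ℝ)) ≤ ((2 : ℕ) : ℝ) ^ (1 : ℝ) := by
              apply Real.rpow_le_rpow_of_exponent_le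
              · norm_num
              · rw [div_le_one (by linarith)]; exact hk1
          _ = 2 := by norm_num
    have h5 := Real.log_two_gt_d9
    have h6 : ((2 : ℕ) : ℝ) ^ (1 / (k : ℝ)) / A ≤ 2 :=
      (div_le_self (by positivity) hA0).trans h4
    push_cast at h h6
    linarith
  · have h5 : 1 < Real.log q := by
      rw [Real.lt_log_iff_exp_lt hq0]
      have h6 := Real.exp_one_lt_d9
      have h7 : (3 : ℝ) ≤ q := by exact_mod_cast h3
      linarith
    linarith

/-- **Short edges.** -/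
theorem short_edge {A k : ℕ} (hA : 1 ≤ A) {Q : Finset α} {𝓕 : Finset (Finset α)}
    (hD : Dual A k Q 𝓕) {w : Finset α → ℝ} (hw : ∀ F ∈ 𝓕, 0 ≤ w F) (hQ : 2 ≤ Q.card) :
    ∃ x ∈ Q, ∃ y ∈ Q, x ≠ y ∧
      ∑ F ∈ 𝓕, (if sep F x y then w F else 0) ≤ th A k Q.card * ∑ F ∈ 𝓕, w F := by
  by_contra hcon
  push Not at hcon
  set q := Q.card with hq
  set W := ∑ F ∈ 𝓕, w F with hW
  have hW0 : 0 ≤ W := Finset.sum_nonneg hw
  obtain ⟨x0, hx0, y0, hy0, hne⟩ := Finset.one_lt_card.1 (show 1 < Q.card by omega)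
  have hle : ∀ x y, ∑ F ∈ 𝓕, (if sep F x y then w F else 0) ≤ W := by
    intro x y
    refine Finset.sum_le_sum fun F hF => ?_
    split_ifs
    · exact le_rfl
    · exact hw F hF
  have hth1 : th A k q < 1 := by
    by_contra h1
    push Not at h1
    have h2 := hcon x0 hx0 y0 hy0 hne
    have h3 := hle x0 y0
    nlinarith
  have hWpos : 0 < W := by
    have h2 := hcon x0 hx0 y0 hy0 hne
    have h3 := hle x0 y0
    have h4 := mul_nonneg (th_nonneg A k q) hW0
    linarith
  have h4 := pow_half hA hQ hth1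
  have hq0 : (0 : ℝ) < q := by positivity
  have hA0 : (1 : ℝ) ≤ A := by exact_mod_cast hA
  set R := (q : ℝ) ^ (1 / (k : ℝ)) / A with hR
  have hk : k ≠ 0 := by
    rintro rfl
    rw [hR, Nat.cast_zero, div_zero, Real.rpow_zero] at h4
    have : 1 / (A : ℝ) ≤ 1 := (div_le_one (by linarith)).2 hA0
    linarith
  -- number of samples
  set m : ℕ := ⌈R⌉₊ - 2 with hm
  have hceil : 5 ≤ ⌈R⌉₊ := by
    have : (4 : ℝ) < ⌈R⌉₊ := lt_of_lt_of_le h4 (Nat.le_ceil R)
    exact_mod_cast this
  have hm1 : (m : ℝ) + 1 < R := by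
    have h5 : (⌈R⌉₊ : ℝ) < R + 1 := Nat.ceil_lt_add_one (by linarith)
    have h6 : (m : ℝ) = (⌈R⌉₊ : ℝ) - 2 := by
      rw [hm, Nat.cast_sub (by omega)]; norm_num
    linarith
  have hm2 : R / 2 ≤ m := by
    have h5 := Nat.le_ceil R
    have h6 : (m : ℝ) = (⌈R⌉₊ : ℝ) - 2 := by
      rw [hm, Nat.cast_sub (by omega)]; norm_num
    linarith
  have hmpos : m ≠ 0 := by omega
  have hmk : A * (m + 1) ^ k < q := by
    have h5 : ((m : ℝ) + 1) ^ k < R ^ k := pow_lt_pow_left₀ hm1 (by positivity) hk
    have h6 : R ^ k = q / (A : ℝ) ^ k := by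
      rw [hR, div_pow, one_div, Real.rpow_inv_natCast_pow hq0.le hk]
    have h7 : (A : ℝ) ≤ (A : ℝ) ^ k := le_self_pow₀ hA0 hk
    rw [h6, lt_div_iff₀ (by positivity)] at h5
    have h8 : (A : ℝ) * ((m : ℝ) + 1) ^ k < q := by
      refine lt_of_le_of_lt ?_ h5
      rw [mul_comm]
      gcongr
    exact_mod_cast h8
  -- all samples fail to separate some pair
  have hfail : ∀ f ∈ Fintype.piFinset (fun _ : Fin m => 𝓕), ∃ p ∈ Q.offDiag, ∀ i, ¬ sep (f i) p.1 p.2 := by
    intro f hf
    rw [Fintype.mem_piFinset] at hf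
    by_contra hno
    push Not at hno
    have hinj : Set.InjOn (fun x => (Finset.univ : Finset (Fin m)).filter (fun i => x ∈ f i))
        (Q : Set α) := by
      intro x hx y hy hxy
      by_contra hne
      obtain ⟨i, hi⟩ := hno (x, y) (Finset.mem_offDiag.2 ⟨hx, hy, hne⟩)
      apply hi
      have := congrArg (fun s : Finset (Fin m) => i ∈ s) hxy
      simpa using this
    have h5 := hD m f hf
    rw [Finset.card_image_of_injOn hinj] at h5
    omega
  set N : α × α → ℝ := fun p => ∑ F ∈ 𝓕, (if sep F p.1 p.2 then 0 else w F) with hN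
  have hN0 : ∀ p, 0 ≤ N p := by
    intro p
    refine Finset.sum_nonneg fun F hF => ?_
    split_ifs
    · exact le_rfl
    · exact hw F hF
  have hNlt : ∀ p ∈ Q.offDiag, N p ≤ (1 - th A k q) * W := by
    intro p hp
    obtain ⟨h1, h2, h3⟩ := Finset.mem_offDiag.1 hp
    have h5 := hcon p.1 h1 p.2 h2 h3
    have h6 : N p + ∑ F ∈ 𝓕, (if sep F p.1 p.2 then w F else 0) = W := by
      rw [hN, hW, ← Finset.sum_add_distrib]
      refine Finset.sum_congr rfl fun F _ => ?_
      split_ifs <;> simp
    linarith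
  have hpow : ∀ p, N p ^ m = ∑ f ∈ Fintype.piFinset (fun _ : Fin m => 𝓕),
      ∏ i, (if sep (f i) p.1 p.2 then 0 else w (f i)) := by
    intro p
    have h5 := Finset.prod_univ_sum (fun _ : Fin m => 𝓕)
      (fun _ F => if sep F p.1 p.2 then (0:ℝ) else w F)
    rw [← h5]
    simp [hN]
  have hpowW : W ^ m = ∑ f ∈ Fintype.piFinset (fun _ : Fin m => 𝓕), ∏ i, w (f i) := by
    have h5 := Finset.prod_univ_sum (fun _ : Fin m => 𝓕) (fun _ F => w F)
    rw [← h5]
    simp [hW]
  have hsum : W ^ m ≤ ∑ p ∈ Q.offDiag, N p ^ m := by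
    rw [hpowW]
    simp_rw [hpow]
    rw [Finset.sum_comm]
    refine Finset.sum_le_sum fun f hf => ?_
    obtain ⟨p, hp, hp2⟩ := hfail f hf
    rw [Fintype.mem_piFinset] at hf
    have hnn : ∀ p' ∈ Q.offDiag, 0 ≤ ∏ i, (if sep (f i) p'.1 p'.2 then 0 else w (f i)) := by
      intro p' _
      refine Finset.prod_nonneg fun i _ => ?_
      split_ifs
      · exact le_rfl
      · exact hw _ (hf i)
    refine le_trans (le_of_eq ?_) (Finset.single_le_sum hnn hp)
    refine Finset.prod_congr rfl fun i _ => ?_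
    rw [if_neg (hp2 i)]
  have hbound : ∑ p ∈ Q.offDiag, N p ^ m ≤ Q.offDiag.card * ((1 - th A k q) * W) ^ m := by
    rw [← nsmul_eq_mul, ← Finset.sum_const]
    refine Finset.sum_le_sum fun p hp => ?_
    exact pow_le_pow_left₀ (hN0 p) (hNlt p hp) m
  have hoff : (Q.offDiag.card : ℝ) < (q : ℝ) ^ 2 := by
    have h5 : Q.offDiag.card < q ^ 2 := by
      rw [Finset.offDiag_card, ← hq, sq]
      have : 0 < q := by omega
      have : 0 < q * q := by positivity
      omega
    exact_mod_cast h5
  have hexp : (1 - th A k q) ^ m ≤ ((q : ℝ) ^ 2)⁻¹ := by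
    have h5 : 1 - th A k q ≤ Real.exp (-th A k q) := by
      have := Real.add_one_le_exp (-th A k q)
      linarith
    calc (1 - th A k q) ^ m ≤ (Real.exp (-th A k q)) ^ m :=
          pow_le_pow_left₀ (by linarith) h5 m
      _ = Real.exp (-(th A k q * m)) := by
          rw [← Real.exp_nat_mul]
          congr 1
          ring
      _ ≤ Real.exp (-(2 * Real.log q)) := by
          apply Real.exp_le_exp.2
          have h6 : 2 * Real.log q ≤ th A k q * m := by
            have h7 : th A k q * (R / 2) = 2 * Real.log q := by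
              have hRne : R ≠ 0 := by linarith
              rw [th, ← hR]
              field_simp
              ring
            rw [← h7]
            exact mul_le_mul_of_nonneg_left hm2 (th_nonneg A k q)
          linarith
      _ = ((q : ℝ) ^ 2)⁻¹ := by
          rw [Real.exp_neg, two_mul, Real.exp_add, Real.exp_log hq0, sq]
  have hWm : 0 < W ^ m := pow_pos hWpos m
  have hlast : Q.offDiag.card * ((1 - th A k q) * W) ^ m < W ^ m := by
    rw [mul_pow, ← mul_assoc]
    have h5 : (Q.offDiag.card : ℝ) * (1 - th A k q) ^ m < 1 := by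
      calc (Q.offDiag.card : ℝ) * (1 - th A k q) ^ m
          ≤ Q.offDiag.card * ((q : ℝ) ^ 2)⁻¹ :=
            mul_le_mul_of_nonneg_left hexp (Nat.cast_nonneg _)
        _ < (q : ℝ) ^ 2 * ((q : ℝ) ^ 2)⁻¹ :=
            mul_lt_mul_of_pos_right hoff (by positivity)
        _ = 1 := mul_inv_cancel₀ (by positivity)
    calc _ < 1 * W ^ m := mul_lt_mul_of_pos_right h5 hWm
      _ = W ^ m := one_mul _
  linarith

/-- **Spanning walks**, weighted form. -/
theorem walk_weighted {A k : ℕ} (hA : 1 ≤ A) {𝓕 : Finset (Finset α)} :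
    ∀ (q : ℕ) (Q : Finset α), Q.card = q → 1 ≤ q → Dual A k Q 𝓕 → ∀ w : Finset α → ℝ, (∀ F ∈ 𝓕, 0 ≤ w F) →
    ∃ (l : List α) (c : Finset α → ℕ), (∀ x, x ∈ l ↔ x ∈ Q) ∧ (∀ F, cr F l = 2 * c F) ∧
      ∑ F ∈ 𝓕, w F * 2 ^ (c F) ≤ (∑ F ∈ 𝓕, w F) * ∏ i ∈ Finset.Icc 2 q, (1 + th A k i) := by
  intro q
  induction q with
  | zero => intro Q _ h; omega
  | succ q ih =>
    intro Q hQ _ hD w hw
    rcases Nat.eq_zero_or_pos q with h0 | h0
    · subst h0
      obtain ⟨a, ha⟩ := Finset.card_eq_one.1 hQ
      refine ⟨[a], fun _ => 0, ?_, ?_, ?_⟩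
      · intro x; rw [ha]; simp
      · intro F; simp [cr]
      · simp
    · obtain ⟨x, hx, y, hy, hne, hs⟩ := short_edge hA hD hw (by omega)
      rw [hQ] at hs
      set w' : Finset α → ℝ := fun F => w F + (if sep F x y then w F else 0) with hw'
      have hcard : (Q.erase x).card = q := by rw [Finset.card_erase_of_mem hx, hQ]; rfl
      obtain ⟨l, c, hl, hc, hsum⟩ := ih (Q.erase x) hcard h0 (hD.mono (Finset.erase_subset _ _)) w' (by
        intro F hF
        have := hw F hF
        rw [hw']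
        dsimp only
        split_ifs <;> linarith)
      have hyl : y ∈ l := (hl y).2 (Finset.mem_erase.2 ⟨hne.symm, hy⟩)
      obtain ⟨s, t, rfl⟩ := List.append_of_mem hyl
      refine ⟨s ++ y :: x :: y :: t, fun F => c F + (if sep F x y then 1 else 0), ?_, ?_, ?_⟩
      · intro z
        have h1 := hl z
        rw [Finset.mem_erase] at h1
        simp only [List.mem_append, List.mem_cons] at h1 ⊢
        constructor
        · rintro (h | h | h | h | h)
          · exact (h1.1 (Or.inl h)).2
          · rw [h]; exact hy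
          · rw [h]; exact hx
          · rw [h]; exact hy
          · exact (h1.1 (Or.inr (Or.inr h))).2
        · intro hz
          by_cases hzx : z = x
          · exact Or.inr (Or.inr (Or.inl hzx))
          · rcases h1.2 ⟨hzx, hz⟩ with h | h | h
            · exact Or.inl h
            · exact Or.inr (Or.inl h)
            · exact Or.inr (Or.inr (Or.inr (Or.inr h)))
      · intro F
        rw [cr_insert, hc F]
        ring
      · have h1 : ∀ F ∈ 𝓕, w F * 2 ^ (c F + (if sep F x y then 1 else 0)) = w' F * 2 ^ (c F) := by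
          intro F _
          rw [hw']
          dsimp only
          split_ifs
          · rw [pow_succ]; ring
          · simp
        rw [Finset.sum_congr rfl h1]
        refine hsum.trans ?_
        have h2 : ∑ F ∈ 𝓕, w' F ≤ (1 + th A k (q + 1)) * ∑ F ∈ 𝓕, w F := by
          rw [hw', Finset.sum_add_distrib]
          linarith
        have h3 : ∏ i ∈ Finset.Icc 2 (q + 1), (1 + th A k i) =
            (∏ i ∈ Finset.Icc 2 q, (1 + th A k i)) * (1 + th A k (q + 1)) := by
          rw [← Finset.insert_Icc_right_eq_Icc_add_one (by omega), Finset.prod_insert (by simp), mul_comm]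
        rw [h3]
        have h4 : 0 ≤ ∏ i ∈ Finset.Icc 2 q, (1 + th A k i) :=
          Finset.prod_nonneg fun i _ => by have := th_nonneg A k i; linarith
        calc (∑ F ∈ 𝓕, w' F) * ∏ i ∈ Finset.Icc 2 q, (1 + th A k i)
            ≤ ((1 + th A k (q + 1)) * ∑ F ∈ 𝓕, w F) * ∏ i ∈ Finset.Icc 2 q, (1 + th A k i) :=
              mul_le_mul_of_nonneg_right h2 h4
          _ = _ := by ring

end Pool.Agent.N240.W
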